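import Pool.Agent.Lib.Pa7c826f.Defs
import Pool.Agent.Lib.Pa7c826n.Base

/-!
Definitions used in the proofs for random flips.
-/

namespace Pool.Agent.Lib.Pa7c826n

open Pool.Agent.Lib.Pa7c826 Finset

/-- number of the right vertices flipped for all vertices of `T` -/
def cf {N : ℕ} (F : Fin N → Fin N → Bool) (T : Finset (Fin N)) : ℕ :=
  (univ.filter fun w => ∀ v ∈ T, F v w = true).card

/-- the error caused by the flips of complete rows -/
noncomputable def DF {N : ℕ} (F : Fin N → Fin N → Bool) : ℝ :=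
  ∑ T ∈ (univ : Finset (Finset (Fin N))).filter (fun T => T.Nonempty), ((2 : ℝ) ^ cf F T - 1)

/-- the new graph with the random flips read off `r` -/
def redX (e u l₀ : ℕ) (G : BGraph) (t : ℕ) (r : List Bool) : BGraph :=
  mkGraph (2 ^ Lx e (ll l₀ G t)) (2 ^ Lx e (ll l₀ G t)) (fun i j =>
    xor (e0 G t (sx u (ll l₀ G t)) i j)
      (nz (2 * Lx e (ll l₀ G t)) (Xx e u (ll l₀ G t)) r (i * 2 ^ Lx e (ll l₀ G t) + j)))

/-- the new machine for flips -/
def fX (e u l₀ : ℕ) (m : Polynomial ℕ) (f : BGraph → ℕ → List Bool → List Bool) (G : BGraph)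
    (t : ℕ) (r : List Bool) : List Bool :=
  List.replicate (KN e l₀ G t) true ++
    f (redX e u l₀ G t r) (2 * t) ((r.drop (RN e l₀ G t)).take (MN e l₀ m G t))

end Pool.Agent.Lib.Pa7c826n
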