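import Pool.Agent.Lib.Pa7c826f.Base
import Pool.Agent.Lib.Pa7c826n.ProbA

/-!
Random graphs with independent edges contain random edges.

Proof. `couple`: `q + (1 - q) r = P i j` for `r = (P i j - q) / (1 - q)` (if `q = 1`, then
`P i j = 1`, and both sides are `1`; Lean's `r` is `0` then). Both sides are sums over the values
`H` of the argument of `g`: for fixed `H` the coefficient on the right is
`∑ R, ∑ F, [∀ i j, (R i j || F i j) = H i j] ∏ i, ∏ j, w (R i j) v (F i j)`, which is the product
over `i, j` of `∑ x y : Bool, [(x || y) = H i j] w x v y` (for `H i j = false` this is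
`(1 - r) (1 - q) = 1 - P i j`, for `true` it is `P i j`). Same method as `Ex_union` in
Lib/Pa7c826n/ProbD.lean, with the weights depending on `i, j`.

`indep_of_noisy`: the same machine, the same `δ`, `N ≥ N₀, N₁, 1`; `q = p N`, `0 ≤ q ≤ 1` (`N ≥ 1`
and the condition on `P` give `q ≤ 1`). `couple` with `g H = if A H then 1 else 0`; for every `R`
the inner expectation is at least the probability in `NoisyFPTAS` (`Ex_mono`: if the event for all
`E` holds for `F`, then `A` holds for `R ∪ F`; `join R F` is by definition `graphOf` of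
`fun i j => R i j || F i j`), and the weights of the `R` are nonnegative with sum `1` (`couple`
with `g = 1` and `Ex_const`, `∑ H = 1` by distributivity as in `sum_wt`).
-/

namespace Pool.Agent.Lib.Pa7c826n

open Pool.Agent.Lib.Pa7c826

namespace CoupleFAux

section

variable {α β : Type} [Fintype α] [Fintype β] [DecidableEq α] [DecidableEq β]

theorem sum_prod (w : α → β → Bool → ℝ) :
    ∑ F : α → β → Bool, ∏ i, ∏ j, w i j (F i j) = ∏ i, ∏ j, (w i j true + w i j false) := by
  have h1 : ∀ i, ∏ j, (w i j true + w i j false) = ∑ x : β → Bool, ∏ j, w i j (x j) := by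
    intro i
    have h2 : ∀ j, w i j true + w i j false = ∑ b : Bool, w i j b :=
      fun j => (Fintype.sum_bool _).symm
    simp only [h2]
    rw [Finset.prod_univ_sum, Fintype.piFinset_univ]
  simp only [h1]
  rw [Finset.prod_univ_sum, Fintype.piFinset_univ]

omit [DecidableEq α] [DecidableEq β] in
theorem ind_eq (K H : α → β → Bool) :
    (∏ i, ∏ j, if K i j = H i j then (1 : ℝ) else 0) = if K = H then 1 else 0 := by
  by_cases h : K = H
  · subst h
    simp
  · rw [if_neg h]
    have h1 : ∃ i j, K i j ≠ H i j := by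
      by_contra hcon
      push Not at hcon
      exact h (funext fun i => funext fun j => hcon i j)
    obtain ⟨i, j, hij⟩ := h1
    exact Finset.prod_eq_zero (Finset.mem_univ i)
      (Finset.prod_eq_zero (Finset.mem_univ j) (if_neg hij))

theorem expand (g : (α → β → Bool) → ℝ) (K : α → β → Bool) :
    g K = ∑ H, g H * ∏ i, ∏ j, (if K i j = H i j then (1 : ℝ) else 0) := by
  simp only [ind_eq, mul_ite, mul_one, mul_zero]
  rw [Finset.sum_ite_eq Finset.univ K g, if_pos (Finset.mem_univ K)]

theorem innerP (q : ℝ) (R H : α → β → Bool) :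
    Ex q (fun F : α → β → Bool => ∏ i, ∏ j, (if (R i j || F i j) = H i j then (1 : ℝ) else 0)) =
      ∏ i, ∏ j, (if R i j = true then (if H i j = true then 1 else 0)
        else (if H i j = true then q else 1 - q)) := by
  rw [Ex_prod q (fun i j b => if (R i j || b) = H i j then (1 : ℝ) else 0)]
  refine Finset.prod_congr rfl fun i _ => Finset.prod_congr rfl fun j _ => ?_
  cases R i j <;> cases H i j <;> simp

theorem outerP {q : ℝ} {P : α → β → ℝ} (h : ∀ i j, q ≤ P i j ∧ P i j ≤ 1) (H : α → β → Bool) :
    ∑ R : α → β → Bool,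
        (∏ i, ∏ j, if R i j = true then (P i j - q) / (1 - q) else 1 - (P i j - q) / (1 - q)) *
          (∏ i, ∏ j, (if R i j = true then (if H i j = true then 1 else 0)
            else (if H i j = true then q else 1 - q))) =
      ∏ i, ∏ j, if H i j = true then P i j else 1 - P i j := by
  simp only [← Finset.prod_mul_distrib]
  rw [sum_prod (fun i j b => (if b = true then (P i j - q) / (1 - q)
    else 1 - (P i j - q) / (1 - q)) * (if b = true then (if H i j = true then 1 else 0)
            else (if H i j = true then q else 1 - q)))]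
  refine Finset.prod_congr rfl fun i _ => Finset.prod_congr rfl fun j _ => ?_
  obtain ⟨h1, h2⟩ := h i j
  by_cases hq : q = 1
  · have h3 : P i j = 1 := le_antisymm h2 (hq ▸ h1)
    subst hq
    rw [h3]
    cases H i j <;> simp
  · have h4 : 1 - q ≠ 0 := fun h5 => hq (by linarith)
    cases H i j
    · simp
      field_simp
      ring
    · simp
      field_simp
      ring

end

end CoupleFAux

open CoupleFAux

theorem couple {α β : Type} [Fintype α] [Fintype β] [DecidableEq α] [DecidableEq β] {q : ℝ}
    {P : α → β → ℝ} (h : ∀ i j, q ≤ P i j ∧ P i j ≤ 1) (g : (α → β → Bool) → ℝ) :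
    ∑ H, (∏ i, ∏ j, if H i j = true then P i j else 1 - P i j) * g H =
      ∑ R : α → β → Bool,
        (∏ i, ∏ j, if R i j = true then (P i j - q) / (1 - q) else 1 - (P i j - q) / (1 - q)) *
          Ex q (fun F => g (fun i j => R i j || F i j)) := by
  have h1 : ∀ R : α → β → Bool, Ex q (fun F => g (fun i j => R i j || F i j)) =
      ∑ H, g H * ∏ i, ∏ j, (if R i j = true then (if H i j = true then (1 : ℝ) else 0)
        else (if H i j = true then q else 1 - q)) := by
    intro R
    have h2 : (fun F : α → β → Bool => g (fun i j => R i j || F i j)) =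
        fun F => ∑ H, g H * ∏ i, ∏ j, (if (R i j || F i j) = H i j then (1 : ℝ) else 0) := by
      funext F
      exact expand g _
    rw [h2, Ex_sum]
    refine Finset.sum_congr rfl fun H _ => ?_
    rw [Ex_mul, innerP]
  simp only [h1, Finset.mul_sum]
  rw [Finset.sum_comm]
  refine Finset.sum_congr rfl fun H _ => ?_
  rw [← outerP h H, Finset.sum_mul]
  refine Finset.sum_congr rfl fun R _ => ?_
  ring

theorem indep_of_noisy {p : ℕ → ℝ} (hp : ∃ N₁ : ℕ, ∀ N ≥ N₁, 0 ≤ p N) (h : NoisyFPTAS p) :
    IndepFPTAS p := by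
  classical
  obtain ⟨f, hf, δ, hδ, N₀, hN⟩ := h
  obtain ⟨N₁, hN₁⟩ := hp
  refine ⟨f, hf, δ, hδ, N₀ + N₁ + 1, fun N hNN P hP => ?_⟩
  have hpos : 0 < N := by omega
  have hq0 : 0 ≤ p N := hN₁ N (by omega)
  have hq1 : p N ≤ 1 := (hP ⟨0, hpos⟩ ⟨0, hpos⟩).1.trans (hP ⟨0, hpos⟩ ⟨0, hpos⟩).2
  have hmain := hN N (by omega)
  unfold PrM
  rw [couple hP]
  have hW0 : ∀ R : Fin N → Fin N → Bool, 0 ≤ ∏ i, ∏ j, (if R i j = true then
      (P i j - p N) / (1 - p N) else 1 - (P i j - p N) / (1 - p N)) := by
    intro R
    refine Finset.prod_nonneg fun i _ => Finset.prod_nonneg fun j _ => ?_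
    have h1 : 0 ≤ P i j - p N := by linarith [(hP i j).1]
    have h2 : P i j - p N ≤ 1 - p N := by linarith [(hP i j).2]
    have h3 : 0 ≤ 1 - p N := by linarith
    have h4 : (P i j - p N) / (1 - p N) ≤ 1 := div_le_one_of_le₀ h2 h3
    split_ifs
    · exact div_nonneg h1 h3
    · linarith
  have hW1 : ∑ R : Fin N → Fin N → Bool, ∏ i, ∏ j, (if R i j = true then
      (P i j - p N) / (1 - p N) else 1 - (P i j - p N) / (1 - p N)) = 1 := by
    rw [sum_prod (fun i j b => if b = true then
      (P i j - p N) / (1 - p N) else 1 - (P i j - p N) / (1 - p N))]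
    refine Finset.prod_eq_one fun i _ => Finset.prod_eq_one fun j _ => ?_
    simp
  calc (1 : ℝ) - (N : ℝ) ^ (-δ) = ∑ R : Fin N → Fin N → Bool, (∏ i, ∏ j, (if R i j = true then
      (P i j - p N) / (1 - p N) else 1 - (P i j - p N) / (1 - p N))) *
        (1 - (N : ℝ) ^ (-δ)) := by rw [← Finset.sum_mul, hW1, one_mul]
    _ ≤ _ := by
      refine Finset.sum_le_sum fun R _ => mul_le_mul_of_nonneg_left ?_ (hW0 R)
      refine hmain.trans ?_
      unfold Pr
      refine Ex_mono hq0 hq1 fun F => ?_
      split_ifs with h1 h2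
      · exact le_rfl
      · exact absurd (fun t ht => h1 R t ht) h2
      · exact zero_le_one
      · exact le_rfl

end Pool.Agent.Lib.Pa7c826n
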