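import Pool.Agent.Lib.Pa7c826n.Defs

/-!
Random bipartite graphs with independent pairs, random flips of pairs, and approximation schemes
for the number of independent sets of these random graphs.
-/

namespace Pool.Agent.Lib.Pa7c826n

open Pool.Agent.Lib.Pa7c826

open Classical in
/-- The probability of `A H` when the pairs `(i, j)` are chosen (`H i j = true`) independently of
each other, the pair `(i, j)` with probability `P i j`. -/
noncomputable def PrM {α β : Type} [Fintype α] [Fintype β] [DecidableEq α] [DecidableEq β]
    (P : α → β → ℝ) (A : (α → β → Bool) → Prop) : ℝ :=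
  ∑ H, (∏ i, ∏ j, if H i j = true then P i j else 1 - P i j) * (if A H then 1 else 0)

/-- The bipartite graph with `N` vertices on each side whose edges are the pairs of `H`. -/
def graphOf {N : ℕ} (H : Fin N → Fin N → Bool) : BGraph := ⟨N, N, H⟩

/-- The bipartite graph with `N` vertices on each side whose edges are the pairs which belong to
exactly one of `E` and `F`. -/
def flips {N : ℕ} (E F : Fin N → Fin N → Bool) : BGraph := graphOf fun i j => xor (E i j) (F i j)

/-- A deterministic fully polynomial approximation scheme for random graphs of density at least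
`p N`, `N` the number of vertices on each side: a machine that on input `(H, 1^t)`, `H` a balanced
bipartite graph and `t ≥ 1`, runs in polynomial time, such that for some `δ > 0`, all large `N`
and all probabilities `P i j ≥ p N` the following event has probability at least `1 - N ^ (-δ)`
for the random bipartite graph `H` with independent edges, `(i, j)` being one with probability
`P i j`: for every `t`, the output on input `(H, 1^t)` is within a factor `1 ± 1 / t` of the
number of independent sets of `H`. -/
def IndepFPTAS (p : ℕ → ℝ) : Prop :=
  ∃ f : {x : BGraph × ℕ // x.1.a = x.1.b ∧ 1 ≤ x.2} → List Bool,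
    Nonempty (Turing.TM2ComputableInPolyTime (α := {x : BGraph × ℕ // x.1.a = x.1.b ∧ 1 ≤ x.2})
      (αΓ := Bool) (βΓ := Bool) (fun x => inCode x.1.1 x.1.2) id f) ∧
    ∃ δ : ℝ, 0 < δ ∧ ∃ N₀ : ℕ, ∀ N ≥ N₀, ∀ P : Fin N → Fin N → ℝ,
      (∀ i j, p N ≤ P i j ∧ P i j ≤ 1) →
        1 - (N : ℝ) ^ (-δ) ≤ PrM P (fun H : Fin N → Fin N → Bool =>
          ∀ (t : ℕ) (ht : 1 ≤ t), Good (graphOf H) t (f ⟨(graphOf H, t), rfl, ht⟩))

/-- A randomised approximation scheme under random flips with probability `p N`, `N` the number of
vertices on each side: a polynomial `m` and a machine that on input `(H, 1^t)`, `H` a balanced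
bipartite graph and `t ≥ 1`, followed by `m(length)` random bits, runs in polynomial time, such
that for all large `N`, every bipartite graph `E` with `N` vertices on each side and every
`t ≥ 1` the output on input `(E xor F, 1^t)` is within a factor `1 ± 1 / t` of the number of
independent sets of `E xor F` with probability at least `3 / 4`; the probability is over the
random bits and the random set `F` of pairs chosen independently with probability `p N`. -/
def FlipFPRAS (p : ℕ → ℝ) : Prop :=
  ∃ (m : Polynomial ℕ) (f : BGraph → ℕ → List Bool → List Bool),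
    Nonempty (Turing.TM2ComputableInPolyTime
      (α := {x : BGraph × ℕ × List Bool //
        x.1.a = x.1.b ∧ 1 ≤ x.2.1 ∧ x.2.2.length = m.eval (inCode x.1 x.2.1).length})
      (αΓ := Bool) (βΓ := Bool) (fun x => inCode x.1.1 x.1.2.1 ++ x.1.2.2) id
      (fun x => f x.1.1 x.1.2.1 x.1.2.2)) ∧
    ∃ N₀ : ℕ, ∀ N ≥ N₀, ∀ (E : Fin N → Fin N → Bool) (t : ℕ), 1 ≤ t →
      3 / 4 ≤ Ex (p N) (fun F =>
        (Nat.card {r : Fin (m.eval (inCode (flips E F) t).length) → Bool //
          Good (flips E F) t (f (flips E F) t (List.ofFn r))} : ℝ) /
        2 ^ m.eval (inCode (flips E F) t).length)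

end Pool.Agent.Lib.Pa7c826n
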