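import Pool.Agent.Lib.Pa7c826f.Base

/-!
Flips instead of additional edges change the number of independent sets only a little.

Proof. Let `H = join E F`, `H' = flips E F`. By `card_Ind_eq` (Lib/Pa7c826y/Main2.lean) and `sum_fam`
(Lib/Pa7c826y/Alg.lean, with all sets) the number of independent sets of `H` is
`∑_S 2 ^ (number of right vertices without neighbours in S)` over all sets `S` of left vertices;
the same for `H'`. Let `T` be the set of the `i ∈ S` with `a s ≤ i`. If `T` is empty, the terms of
`S` for `H` and `H'` are equal: for `i < a s`, `i` is a clone (`cl has v`,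
`i = (i / s) s + i % s`), and `E i j || F i j = xor (E i j) (F i j)` for all `j` (by `hE1`, `hF`
not both are `true`). If `T` is nonempty, the term for `H` is `2 ^ 0 = 1` (`hE2`) and the term for
`H'` is at least `1` and at most `2 ^ cf F T` (a right vertex `w` without neighbours in `S` has
`xor true (F v w) = false`, i.e. `F v w = true`, for all `v ∈ T`). The number of sets `S` with the
same `T` is at most `2 ^ (a s)` (`S` is determined by `T` and the set of its elements `< a s`; there
are `a s` such elements of `Fin N`), and all terms of `DF` are nonnegative.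
-/

namespace Pool.Agent.Lib.Pa7c826n

open Pool.Agent.Lib.Pa7c826 Pool.Agent.Lib.Pa7c826y Finset

namespace DiffFAux

private theorem num_eq {N : ℕ} (H : Fin N → Fin N → Bool) :
    numIndep (BGraph.graph ⟨N, N, H⟩) = ∑ S : Finset (Fin N), 2 ^ ((nb H S)ᶜ).card := by
  have h1 := card_Ind_eq ⟨N, N, H⟩
  have h2 := sum_fam H (univ : Finset (Finset (Fin N)))
  rw [← h1, h2]
  simp

/-- the vertices of `S` which are not clones -/
private def up {N : ℕ} (c : ℕ) (S : Finset (Fin N)) : Finset (Fin N) :=
  S.filter fun i => c ≤ (i : ℕ)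

private theorem card_fiber {N c : ℕ} (T : Finset (Fin N)) :
    ((univ : Finset (Finset (Fin N))).filter fun S => up c S = T).card ≤ 2 ^ c := by
  have h1 : ((univ : Finset (Finset (Fin N))).filter fun S => up c S = T).card ≤
      ((univ : Finset (Fin N)).filter fun i : Fin N => (i : ℕ) < c).powerset.card := by
    apply card_le_card_of_injOn (fun S => S.filter fun i : Fin N => (i : ℕ) < c)
    · intro S _
      simp only [coe_powerset, Set.mem_preimage, Set.mem_powerset_iff, coe_subset]
      exact filter_subset_filter _ (subset_univ S)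
    · intro S hS S' hS' h
      simp only [coe_filter, mem_univ, true_and, Set.mem_setOf_eq] at hS hS'
      have hS2 : up c S = up c S' := hS.trans hS'.symm
      ext i
      by_cases hi : (i : ℕ) < c
      · have := Finset.ext_iff.1 h i
        simp only [mem_filter, hi, and_true] at this
        exact this
      · have := Finset.ext_iff.1 hS2 i
        simp only [up, mem_filter] at this
        have hi' : c ≤ (i : ℕ) := not_lt.1 hi
        simp only [hi', and_true] at this
        exact this
  refine h1.trans ?_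
  rw [card_powerset]
  apply Nat.pow_le_pow_right (by norm_num)
  have h2 : ((univ : Finset (Fin N)).filter fun i : Fin N => (i : ℕ) < c).card ≤ (range c).card := by
    apply card_le_card_of_injOn (fun i : Fin N => (i : ℕ))
    · intro i hi
      simp only [coe_filter, mem_univ, true_and, Set.mem_setOf_eq] at hi
      simpa using hi
    · intro i _ j _ h
      exact Fin.ext h
  simpa using h2

end DiffFAux

open DiffFAux in
theorem count_flips {N a s b : ℕ} (has : a * s ≤ N) (M : Fin a → Fin b → Bool)
    (E F : Fin N → Fin N → Bool)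
    (hE1 : ∀ (v : Fin a × Fin s) (j : Fin N),
      E (cl has v) j = if h : (j : ℕ) < b then M v.1 ⟨j, h⟩ else false)
    (hE2 : ∀ i j : Fin N, a * s ≤ i → E i j = true)
    (hF : ∀ (v : Fin a × Fin s) (j : Fin N), (j : ℕ) < b → F (cl has v) j = false) :
    (numIndep (join E F).graph : ℝ) ≤ numIndep (flips E F).graph ∧
      (numIndep (flips E F).graph : ℝ) ≤
        numIndep (join E F).graph + 2 ^ (a * s) * DF F := by
  set H : Fin N → Fin N → Bool := fun i j => E i j || F i j with hH
  set H' : Fin N → Fin N → Bool := fun i j => xor (E i j) (F i j) with hH'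
  have e1 : (numIndep (join E F).graph : ℝ) = ∑ S : Finset (Fin N), (2 : ℝ) ^ ((nb H S)ᶜ).card := by
    have := num_eq H
    unfold join
    rw [this]
    push_cast
    rfl
  have e2 : (numIndep (flips E F).graph : ℝ) =
      ∑ S : Finset (Fin N), (2 : ℝ) ^ ((nb H' S)ᶜ).card := by
    have := num_eq H'
    unfold flips graphOf
    rw [this]
    push_cast
    rfl
  -- clones
  have hcl : ∀ i : Fin N, (i : ℕ) < a * s → ∀ j, H i j = H' i j := by
    intro i hi j
    have hs : 0 < s := by
      rcases Nat.eq_zero_or_pos s with h | h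
      · rw [h, Nat.mul_zero] at hi; omega
      · exact h
    have hq : (i : ℕ) / s < a := by
      rw [Nat.div_lt_iff_lt_mul hs]; exact hi
    have hr : (i : ℕ) % s < s := Nat.mod_lt _ hs
    have hi2 : cl has (⟨(i : ℕ) / s, hq⟩, ⟨(i : ℕ) % s, hr⟩) = i := by
      apply Fin.ext
      show (i : ℕ) / s * s + (i : ℕ) % s = i
      exact Nat.div_add_mod' _ _
    have hE := hE1 (⟨(i : ℕ) / s, hq⟩, ⟨(i : ℕ) % s, hr⟩) j
    have hFF := hF (⟨(i : ℕ) / s, hq⟩, ⟨(i : ℕ) % s, hr⟩) j
    rw [hi2] at hE hFF
    simp only [hH, hH']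
    by_cases hj : (j : ℕ) < b
    · rw [hFF hj]; simp
    · rw [dif_neg hj] at hE
      rw [hE]; simp
  have hnb0 : ∀ S : Finset (Fin N), up (a * s) S = ∅ → nb H S = nb H' S := by
    intro S hS
    ext j
    rw [mem_nb, mem_nb]
    have : ∀ i ∈ S, (i : ℕ) < a * s := by
      intro i hi
      by_contra h
      have h2 : i ∈ up (a * s) S := mem_filter.2 ⟨hi, not_lt.1 h⟩
      rw [hS] at h2
      simp at h2
    constructor
    · rintro ⟨i, hi, h⟩
      exact ⟨i, hi, by rw [← hcl i (this i hi)]; exact h⟩
    · rintro ⟨i, hi, h⟩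
      exact ⟨i, hi, by rw [hcl i (this i hi)]; exact h⟩
  have hnb1 : ∀ S : Finset (Fin N), (up (a * s) S).Nonempty → ((nb H S)ᶜ).card = 0 := by
    rintro S ⟨v, hv⟩
    obtain ⟨hv1, hv2⟩ := mem_filter.1 hv
    rw [card_eq_zero, compl_eq_empty_iff, eq_univ_iff_forall]
    intro j
    rw [mem_nb]
    exact ⟨v, hv1, by simp [hH, hE2 v j hv2]⟩
  have hnb2 : ∀ S : Finset (Fin N), ((nb H' S)ᶜ).card ≤ cf F (up (a * s) S) := by
    intro S
    apply card_le_card
    intro w hw
    rw [mem_compl, mem_nb] at hw
    refine mem_filter.2 ⟨mem_univ _, fun v hv => ?_⟩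
    obtain ⟨hv1, hv2⟩ := mem_filter.1 hv
    by_contra hcon
    apply hw
    refine ⟨v, hv1, ?_⟩
    simp only [hH', hE2 v w hv2]
    cases hFv : F v w
    · rfl
    · exact absurd hFv hcon
  -- termwise
  have t1 : ∀ S : Finset (Fin N), (2 : ℝ) ^ ((nb H S)ᶜ).card ≤ 2 ^ ((nb H' S)ᶜ).card := by
    intro S
    rcases (up (a * s) S).eq_empty_or_nonempty with h | h
    · rw [hnb0 S h]
    · rw [hnb1 S h, pow_zero]
      exact one_le_pow₀ (by norm_num)
  set g : Finset (Fin N) → ℝ := fun T => if T.Nonempty then (2 : ℝ) ^ cf F T - 1 else 0 with hg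
  have hg0 : ∀ T, 0 ≤ g T := by
    intro T
    simp only [hg]
    split_ifs
    · have : (1 : ℝ) ≤ 2 ^ cf F T := one_le_pow₀ (by norm_num)
      linarith
    · exact le_rfl
  have t2 : ∀ S : Finset (Fin N), (2 : ℝ) ^ ((nb H' S)ᶜ).card ≤
      2 ^ ((nb H S)ᶜ).card + g (up (a * s) S) := by
    intro S
    rcases (up (a * s) S).eq_empty_or_nonempty with h | h
    · rw [hnb0 S h]
      have := hg0 (up (a * s) S)
      linarith
    · rw [hnb1 S h, pow_zero]
      simp only [hg, if_pos h]
      have : (2 : ℝ) ^ ((nb H' S)ᶜ).card ≤ 2 ^ cf F (up (a * s) S) :=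
        pow_le_pow_right₀ (by norm_num) (hnb2 S)
      linarith
  refine ⟨?_, ?_⟩
  · rw [e1, e2]
    exact sum_le_sum fun S _ => t1 S
  · rw [e1, e2]
    have h1 : ∑ S : Finset (Fin N), (2 : ℝ) ^ ((nb H' S)ᶜ).card ≤
        ∑ S : Finset (Fin N), ((2 : ℝ) ^ ((nb H S)ᶜ).card + g (up (a * s) S)) :=
      sum_le_sum fun S _ => t2 S
    rw [sum_add_distrib] at h1
    refine h1.trans (add_le_add_right ?_ _)
    rw [← sum_fiberwise (univ : Finset (Finset (Fin N))) (fun S => up (a * s) S)]
    have h2 : ∀ T : Finset (Fin N),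
        ∑ S ∈ univ.filter (fun S : Finset (Fin N) => up (a * s) S = T), g (up (a * s) S) ≤
          2 ^ (a * s) * g T := by
      intro T
      have h3 : ∑ S ∈ univ.filter (fun S : Finset (Fin N) => up (a * s) S = T),
          g (up (a * s) S) = ∑ _S ∈ univ.filter (fun S : Finset (Fin N) => up (a * s) S = T),
          g T := by
        apply sum_congr rfl
        intro S hS
        rw [(mem_filter.1 hS).2]
      rw [h3, sum_const, nsmul_eq_mul]
      apply mul_le_mul_of_nonneg_right _ (hg0 T)
      exact_mod_cast card_fiber T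
    refine (sum_le_sum fun T _ => h2 T).trans ?_
    rw [← mul_sum]
    apply le_of_eq
    congr 1
    unfold DF
    rw [sum_filter]

end Pool.Agent.Lib.Pa7c826n
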