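import Pool.Agent.Lib.Pa7c826f.Diff
import Pool.Agent.Lib.Pa7c826n.HGood

/-!
The new graph with flips gives the number of independent sets of the given graph. As
Lib/Pa7c826n/HGood.lean, with a slightly larger error.
-/

namespace Pool.Agent.Lib.Pa7c826n

open Pool.Agent.Lib.Pa7c826 Finset

namespace GoodFAux

open HGoodAux

theorem main_num2 {Z L Y n c : ℝ} {a t : ℕ} {q : ℝ} (hn : (a : ℝ) ≤ n) (hnt : (t : ℝ) + 16 ≤ n)
    (hZ : 2 ^ (t + 4) ≤ Z) (hL1 : (1 - 1 / (16 * n ^ 2)) ^ a * Z ≤ L)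
    (hL2 : L ≤ (1 + 1 / (16 * n ^ 2)) ^ a * Z) (hLY : L ≤ Y) (hY : Y - L ≤ 1 / (8 * n) * Z)
    (hq0 : -1 ≤ q) (hq1 : q ≤ 1) (hc : 0 < c) :
    |(Y + 1 - q) * c - Z * c| ≤ Z * c / (2 * t + 1) := by
  have ht : (0 : ℝ) ≤ t := Nat.cast_nonneg t
  have hn0 : 0 < n := by linarith
  have hZ0 : 0 < Z := lt_of_lt_of_le (by positivity) hZ
  have he : (a : ℝ) * (1 / (16 * n ^ 2)) ≤ 1 / (16 * n) := by
    rw [mul_one_div, div_le_div_iff₀ (by positivity) (by positivity)]
    nlinarith
  have hn16 : 1 / (16 * n) ≤ 1 / 2 := by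
    rw [div_le_div_iff₀ (by positivity) (by positivity)]
    linarith
  have hlow : 1 - 1 / (16 * n) ≤ (1 - 1 / (16 * n ^ 2)) ^ a := by
    have h1 : 1 / (16 * n ^ 2) ≤ 1 := by
      rw [div_le_one (by positivity)]
      nlinarith
    have h2 := one_add_mul_le_pow (a := -(1 / (16 * n ^ 2))) (by linarith) a
    have h3 : (1 - 1 / (16 * n ^ 2)) ^ a = (1 + -(1 / (16 * n ^ 2))) ^ a := by ring
    rw [h3]
    refine le_trans ?_ h2
    linarith
  have hup : (1 + 1 / (16 * n ^ 2)) ^ a ≤ 1 + 1 / (8 * n) := by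
    have h0 : 0 ≤ 1 / (16 * n ^ 2) := by positivity
    have h1 : (1 + 1 / (16 * n ^ 2)) ^ a ≤ Real.exp (a * (1 / (16 * n ^ 2))) := by
      rw [Real.exp_nat_mul]
      exact pow_le_pow_left₀ (by linarith) (by linarith [Real.add_one_le_exp (1 / (16 * n ^ 2))]) a
    have h2 := exp_le (x := a * (1 / (16 * n ^ 2))) (by positivity) (by linarith)
    have h3 : 2 * (1 / (16 * n)) = 1 / (8 * n) := by
      field_simp
      norm_num
    linarith
  have hd : 1 / (16 * n) ≤ 1 / (8 * n) := by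
    rw [div_le_div_iff₀ (by positivity) (by positivity)]
    linarith
  have hYup : Y ≤ (1 + 1 / (8 * n) + 1 / (8 * n)) * Z := by
    have := mul_le_mul_of_nonneg_right hup hZ0.le
    nlinarith
  have hYlow : (1 - 1 / (8 * n)) * Z ≤ Y := by
    have := mul_le_mul_of_nonneg_right (hd.trans' (le_refl _)) hZ0.le
    have h2 := mul_le_mul_of_nonneg_right hlow hZ0.le
    nlinarith
  have h1Z : (1 : ℝ) ≤ 1 / 2 ^ (t + 4) * Z := by
    rw [one_div, ← div_eq_inv_mul, le_div_iff₀ (by positivity)]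
    linarith
  have h8 : 1 / (8 * n) + 1 / (8 * n) = 1 / (4 * n) := by
    field_simp
    norm_num
  have hfin : 1 / (4 * n) + 2 * (1 / 2 ^ (t + 4)) ≤ 1 / (2 * (t : ℝ) + 1) := by
    have e1 : 1 / (4 * n) ≤ 1 / (4 * ((t : ℝ) + 16)) := by
      rw [div_le_div_iff₀ (by positivity) (by positivity)]
      linarith
    have e2 : (1 : ℝ) / 2 ^ (t + 4) ≤ 1 / (16 * ((t : ℝ) + 1)) := by
      have e3 : ((t : ℝ) + 1) ≤ 2 ^ t := by
        have : t + 1 ≤ 2 ^ t := Nat.lt_two_pow_self
        exact_mod_cast this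
      rw [div_le_div_iff₀ (by positivity) (by positivity), pow_add]
      nlinarith
    have e5 : 2 * (1 / (16 * ((t : ℝ) + 1))) = 1 / (8 * ((t : ℝ) + 1)) := by
      field_simp
      norm_num
    have e4 : 1 / (4 * ((t : ℝ) + 16)) + 1 / (8 * ((t : ℝ) + 1)) ≤ 1 / (2 * (t : ℝ) + 1) := by
      rw [div_add_div _ _ (by positivity) (by positivity),
        div_le_div_iff₀ (by positivity) (by positivity)]
      nlinarith [mul_nonneg ht ht]
    linarith
  have hkey : |Y + 1 - q - Z| ≤ Z / (2 * t + 1) := by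
    have h5 : (1 / (4 * n) + 2 * (1 / 2 ^ (t + 4))) * Z ≤ 1 / (2 * (t : ℝ) + 1) * Z :=
      mul_le_mul_of_nonneg_right hfin hZ0.le
    have h6 : 1 / (2 * (t : ℝ) + 1) * Z = Z / (2 * t + 1) := by ring
    have h7 : 0 ≤ 1 / 2 ^ (t + 4) * Z := by positivity
    have h9 : 1 / (8 * n) * Z ≤ 1 / (4 * n) * Z := by
      rw [← h8]
      have : 0 ≤ 1 / (8 * n) * Z := by positivity
      linarith [add_mul (1 / (8 * n)) (1 / (8 * n)) Z]
    rw [abs_le]
    constructor
    · nlinarith
    · have : (1 + 1 / (8 * n) + 1 / (8 * n)) * Z = Z + 1 / (4 * n) * Z := by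
        rw [← h8]
        ring
      nlinarith
  have h10 : (Y + 1 - q) * c - Z * c = (Y + 1 - q - Z) * c := by ring
  rw [h10, abs_mul, abs_of_pos hc]
  have := mul_le_mul_of_nonneg_right hkey hc.le
  calc |Y + 1 - q - Z| * c ≤ Z / (2 * t + 1) * c := this
    _ = Z * c / (2 * t + 1) := by ring

end GoodFAux

open HGoodAux GoodFAux in
theorem good_flips {G : BGraph} {t N s : ℕ} (has : (G.a + t + 4) * s ≤ N) (hb : G.b ≤ N)
    (F : Fin N → Fin N → Bool)
    (h1 : ∀ (v : Fin (G.a + t + 4) × Fin s) (j : Fin N), (j : ℕ) < G.b → F (cl has v) j = false)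
    (h2 : ∀ u, |Pu (res has hb F) u - 2| ≤ 1 / (16 * (nn G t : ℝ) ^ 2))
    (h3 : Yp (MG G t) (res has hb F) - Lp (MG G t) (res has hb F) ≤
      1 / (8 * (nn G t : ℝ)) * ZB (MG G t))
    (h4 : 2 ^ ((G.a + t + 4) * s) * DF F ≤ 2 ^ N) :
    |(numIndep (flips (fun i j : Fin N => e0 G t s i j) F).graph : ℝ) / 2 ^ (N - G.b + (t + 4)) -
      numIndep G.graph| ≤ numIndep G.graph / (2 * t + 1) := by
  have hE1 : ∀ (v : Fin (G.a + t + 4) × Fin s) (j : Fin N),
      e0 G t s (cl has v : Fin N) j = if h : (j : ℕ) < G.b then MG G t v.1 ⟨j, h⟩ else false :=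
    fun v j => by
      obtain ⟨i1, i2⟩ := idx has v
      simp only [e0, MG]
      rw [if_pos (by simpa using i1), i2]
      split_ifs with h
      · rfl
      · simp only [BGraph.F]
        rw [dif_neg]
        intro hh
        exact h hh.2
  have hE2 : ∀ i j : Fin N, (G.a + t + 4) * s ≤ i → e0 G t s i j = true := fun i j hi => by
      simp only [e0]
      rw [if_neg]
      simpa using hi
  have hcount := count_join has hb (MG G t) (fun i j : Fin N => e0 G t s i j) F hE1 hE2 h1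
  obtain ⟨k1, k2⟩ := count_flips has (MG G t) (fun i j : Fin N => e0 G t s i j) F hE1 hE2 h1
  have hnn : (16 : ℝ) ≤ (nn G t : ℝ) := by
    have : 16 ≤ nn G t := by
      unfold nn
      omega
    exact_mod_cast this
  have he1 : (1 : ℝ) / (16 * (nn G t : ℝ) ^ 2) ≤ 1 := by
    rw [div_le_one (by positivity)]
    nlinarith
  have hL1 := Lp_lower (M := MG G t) (F := res has hb F) (by positivity) he1 h2
  have hL2 := Lp_upper (M := MG G t) (F := res has hb F) (by positivity) he1 h2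
  have hLY := Lp_le_Yp (MG G t) (res has hb F)
  have hZ := ZB_MG G t
  have hG := two_pow_le_numIndep G
  set c : ℝ := 2 ^ G.b / 2 ^ (t + 4) with hc
  have hc0 : 0 < c := by positivity
  have hZc : ZB (MG G t) * c = numIndep G.graph := by
    rw [hZ, hc]
    field_simp
  have hZ4 : (2 : ℝ) ^ (t + 4) ≤ ZB (MG G t) := by
    rw [hZ, le_div_iff₀ (by positivity)]
    exact mul_le_mul_of_nonneg_left hG (by positivity)
  set u : ℝ := (numIndep (flips (fun i j : Fin N => e0 G t s i j) F).graph : ℝ) / 2 ^ N -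
    (numIndep (join (fun i j : Fin N => e0 G t s i j) F).graph : ℝ) / 2 ^ N with hu
  have hu0 : 0 ≤ u := by
    rw [hu, ← sub_div]
    exact div_nonneg (by linarith) (by positivity)
  have hu1 : u ≤ 1 := by
    rw [hu, ← sub_div, div_le_one (by positivity)]
    linarith
  have hH : (numIndep (flips (fun i j : Fin N => e0 G t s i j) F).graph : ℝ) /
      2 ^ (N - G.b + (t + 4)) =
      (Yp (MG G t) (res has hb F) + 1 - (2 ^ ((G.a + t + 4) * s) / 2 ^ N - u)) * c := by
    have e0' : Yp (MG G t) (res has hb F) + 1 - (2 ^ ((G.a + t + 4) * s) / 2 ^ N - u) =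
        (numIndep (flips (fun i j : Fin N => e0 G t s i j) F).graph : ℝ) / 2 ^ N := by
      rw [hu]
      linarith
    rw [e0', hc]
    have e : (2 : ℝ) ^ N = 2 ^ (N - G.b) * 2 ^ G.b := by
      rw [← pow_add]
      congr 1
      omega
    rw [e, pow_add 2 (N - G.b)]
    field_simp
  have hfin := main_num2 (Z := ZB (MG G t)) (L := Lp (MG G t) (res has hb F))
    (Y := Yp (MG G t) (res has hb F)) (n := (nn G t : ℝ)) (c := c) (a := G.a + t + 4) (t := t)
    (q := 2 ^ ((G.a + t + 4) * s) / 2 ^ N - u)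
    (by
      have : G.a + t + 4 ≤ nn G t := by
        unfold nn
        omega
      exact_mod_cast this)
    (by
      have : t + 16 ≤ nn G t := by
        unfold nn
        omega
      exact_mod_cast this)
    hZ4 hL1 hL2 hLY h3 (by
      have : (0 : ℝ) ≤ 2 ^ ((G.a + t + 4) * s) / 2 ^ N := by positivity
      linarith)
    (by
      have : (2 : ℝ) ^ ((G.a + t + 4) * s) / 2 ^ N ≤ 1 := by
        rw [div_le_one (by positivity)]
        exact pow_le_pow_right₀ (by norm_num) has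
      linarith) hc0
  rw [hH, ← hZc]
  exact hfin

end Pool.Agent.Lib.Pa7c826n
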