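import Pool.Agent.Lib.Pa7c826f.Base
import Pool.Agent.Lib.Pa7c826n.RMach

/-!
The new machine for flips. As Lib/Pa7c826n/RPolyG.lean and RMach.lean, with `xor` for `||`.
-/

namespace Pool.Agent.Lib.Pa7c826n

open Pool.Agent.Lib.Pa7c826 Pool.Agent.Lib.Pa7c826y
open Pool.Agent.Lib.PolyTime

section

variable {α : Type} {D : α → Prop} {ctx : List (α → List Bool)} {G : α → BGraph} {t : α → ℕ}
  {r : α → List Bool}

open RPolyGAux

theorem polyB_xor {φ ψ : α → Bool} (hφ : PolyB D ctx φ) (hψ : PolyB D ctx ψ) :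
    PolyB D ctx (fun x => xor (φ x) (ψ x)) := by
  refine PolyB.congr (PolyB.ite hφ (PolyC.mono (PolyB.not hψ) fun _ h => h.1)
    (PolyC.mono hψ fun _ h => h.1)) (fun x _ => ?_)
  cases φ x <;> cases ψ x <;> rfl

theorem poly_redX {e u : ℕ} (h : u ≤ e) (l₀ : ℕ)
    (hw : PolyC D ctx (fun x => inCode (G x) (t x))) (hr : PolyC D ctx r) :
    PolyC D ctx (fun x => inCode (redX e u l₀ (G x) (t x) (r x)) (2 * t x)) := by
  have hN := poly_Nx e l₀ hw
  refine poly_inCode hN hN ((PolyN.const 2).mul (poly_s hw)) ?_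
  have hκ : PolyN D ctx (fun x => 2 * Lx e (ll l₀ (G x) (t x))) :=
    (PolyN.const 2).mul (poly_Lx e l₀ hw)
  have h2κ : PolyN D ctx (fun x => 2 ^ (2 * Lx e (ll l₀ (G x) (t x)))) :=
    (hN.mul hN).congr (fun x _ => by rw [← pow_add, ← two_mul])
  set N : α → ℕ := fun x => 2 ^ Lx e (ll l₀ (G x) (t x)) with hNd
  have up2 : ∀ {f : α → ℕ}, PolyN D ctx f →
      PolyN (Pool.Agent.Lib.P8e91ed.PT.Dx (Pool.Agent.Lib.P8e91ed.PT.Dx D N)
        (fun p : α × ℕ => N p.1)) (Pool.Agent.Lib.P8e91ed.PT.cx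
        (Pool.Agent.Lib.P8e91ed.PT.cx ctx)) (fun q => f q.1.1) := fun hf =>
    Pool.Agent.Lib.P8e91ed.PT.nU (Pool.Agent.Lib.P8e91ed.PT.nU hf)
  have W2 := Pool.Agent.Lib.P8e91ed.PT.cU (n := fun p : α × ℕ => N p.1)
    (Pool.Agent.Lib.P8e91ed.PT.cU (n := N) hw)
  have R2 := Pool.Agent.Lib.P8e91ed.PT.cU (n := fun p : α × ℕ => N p.1)
    (Pool.Agent.Lib.P8e91ed.PT.cU (n := N) hr)
  have I2 := Pool.Agent.Lib.P8e91ed.PT.nU (n := fun p : α × ℕ => N p.1)
    (Pool.Agent.Lib.P8e91ed.PT.nL (D := D) (ctx := ctx) (n := N))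
  have J2 := Pool.Agent.Lib.P8e91ed.PT.nL (D := Pool.Agent.Lib.P8e91ed.PT.Dx D N)
    (ctx := Pool.Agent.Lib.P8e91ed.PT.cx ctx) (n := fun p : α × ℕ => N p.1)
  have hs := up2 (poly_sx h l₀ hw)
  have hX := up2 (poly_Xx h l₀ hw)
  have ha := poly_a W2
  have ht := poly_s W2
  have hφ := PolyB.lt I2 (((ha.add ht).add (PolyN.const 4)).mul hs)
  refine polyB_xor ?_ ?_
  · refine PolyB.ite hφ ?_ (PolyB.const true)
    refine poly_F (PolyC.mono W2 fun _ h => h.1) (PolyN.div (PolyC.mono I2 fun _ h => h.1)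
      (PolyC.mono hs fun _ h => h.1) ?_) (PolyC.mono J2 fun _ h => h.1)
    rintro q ⟨_, hq⟩
    rw [decide_eq_true_eq] at hq
    rcases Nat.eq_zero_or_pos (sx u (ll l₀ (G q.1.1) (t q.1.1))) with h0 | h0
    · rw [h0, mul_zero] at hq
      exact absurd hq (Nat.not_lt_zero _)
    · exact h0
  · exact PolyB.lt (poly_nv (up2 hκ) (up2 h2κ) R2 ((I2.mul (up2 hN)).add J2)) hX


end

theorem length_redX (e u l₀ : ℕ) (G : BGraph) (t : ℕ) (r : List Bool) :
    (inCode (redX e u l₀ G t r) (2 * t)).length =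
      2 * t + (2 ^ Lx e (ll l₀ G t) + (2 ^ Lx e (ll l₀ G t) +
        2 ^ Lx e (ll l₀ G t) * 2 ^ Lx e (ll l₀ G t))) + 3 := by
  rw [inCode_length]
  rfl

open Pool.Agent.Lib.PolyTime in
theorem machineX {e u : ℕ} (hue : u ≤ e) (l₀ : ℕ) (m : Polynomial ℕ)
    (f : BGraph → ℕ → List Bool → List Bool)
    (hf : Nonempty (Turing.TM2ComputableInPolyTime
      (α := {x : BGraph × ℕ × List Bool //
        x.1.a = x.1.b ∧ 1 ≤ x.2.1 ∧ x.2.2.length = m.eval (inCode x.1 x.2.1).length})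
      (αΓ := Bool) (βΓ := Bool) (fun x => inCode x.1.1 x.1.2.1 ++ x.1.2.2) id
      (fun x => f x.1.1 x.1.2.1 x.1.2.2))) :
    ∃ m' : Polynomial ℕ,
      (∀ G t, 1 ≤ t → RN e l₀ G t + MN e l₀ m G t ≤ m'.eval (inCode G t).length) ∧
      Nonempty (Turing.TM2ComputableInPolyTime
        (α := {x : BGraph × ℕ × List Bool //
          1 ≤ x.2.1 ∧ x.2.2.length = m'.eval (inCode x.1 x.2.1).length})
        (αΓ := Bool) (βΓ := Bool) (fun x => inCode x.1.1 x.1.2.1 ++ x.1.2.2) id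
        (fun x => fX e u l₀ m f x.1.1 x.1.2.1 x.1.2.2)) := by
  have hv : PolyC (fun x : BGraph × ℕ => 1 ≤ x.2) [fun x => inCode x.1 x.2]
      (fun x => inCode x.1 x.2) := PolyC.var (by simp)
  have hsum : PolyN (fun x : BGraph × ℕ => 1 ≤ x.2) [fun x => inCode x.1 x.2]
      (fun x => RN e l₀ x.1 x.2 + MN e l₀ m x.1 x.2) :=
    (poly_RN e l₀ hv).add (poly_MN e l₀ m hv)
  obtain ⟨m', hm'⟩ := PolyC.length_le hsum
  have hb : ∀ G t, 1 ≤ t → RN e l₀ G t + MN e l₀ m G t ≤ m'.eval (inCode G t).length := by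
    intro G t ht
    have h3 := hm' (G, t) ht
    simp only [vals_cons, vals_nil, total_cons, total_nil, Nat.add_zero, un_length] at h3
    exact h3
  refine ⟨m', hb, ?_⟩
  let D : BGraph × ℕ × List Bool → Prop := fun x =>
    1 ≤ x.2.1 ∧ x.2.2.length = m'.eval (inCode x.1 x.2.1).length
  let enc : BGraph × ℕ × List Bool → List Bool := fun x => inCode x.1 x.2.1 ++ x.2.2
  have hw : PolyC D [enc] enc := PolyC.var (by simp)
  have hlen : PolyN D [enc] (fun x => (inCode x.1 x.2.1).length) :=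
    (((poly_tOf hw).add ((poly_aOf hw).add ((poly_bOf hw).add
      ((poly_aOf hw).mul (poly_bOf hw))))).add (PolyN.const 3)).congr (fun x _ =>
        lenOf_append x.1 x.2.1 x.2.2)
  have hpre : PolyC D [enc] (fun x => inCode x.1 x.2.1) :=
    (PolyC.take hw hlen).congr (fun x _ => List.take_left)
  have hsuf : PolyC D [enc] (fun x => x.2.2) :=
    (PolyC.drop hw hlen).congr (fun x _ => List.drop_left)
  have hred : PolyC D [enc] (fun x => inCode (redX e u l₀ x.1 x.2.1 x.2.2) (2 * x.2.1)) :=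
    poly_redX hue l₀ hpre hsuf
  have hR : PolyN D [enc] (fun x => RN e l₀ x.1 x.2.1) := poly_RN e l₀ hpre
  have hM : PolyN D [enc] (fun x => MN e l₀ m x.1 x.2.1) := poly_MN e l₀ m hpre
  have hK : PolyN D [enc] (fun x => KN e l₀ x.1 x.2.1) := poly_KN e l₀ hpre
  have hpiece : PolyC D [enc] (fun x =>
      (x.2.2.drop (RN e l₀ x.1 x.2.1)).take (MN e l₀ m x.1 x.2.1)) :=
    PolyC.take (PolyC.drop hsuf hR) hM
  have hin : PolyC D [enc] (fun x => inCode (redX e u l₀ x.1 x.2.1 x.2.2) (2 * x.2.1) ++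
      (x.2.2.drop (RN e l₀ x.1 x.2.1)).take (MN e l₀ m x.1 x.2.1)) := hred.append hpiece
  have hcall : PolyC D [enc] (fun x => f (redX e u l₀ x.1 x.2.1 x.2.2) (2 * x.2.1)
      ((x.2.2.drop (RN e l₀ x.1 x.2.1)).take (MN e l₀ m x.1 x.2.1))) := by
    refine PolyC.applyTM2 hf _ _ hin ?_
    rintro ⟨G, t, r⟩ ⟨ht, hr⟩
    refine ⟨⟨(redX e u l₀ G t r, 2 * t, (r.drop (RN e l₀ G t)).take (MN e l₀ m G t)),
      rfl, ?_, ?_⟩, rfl, rfl⟩
    · have ht' : 1 ≤ t := ht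
      show 1 ≤ 2 * t
      omega
    · show ((r.drop (RN e l₀ G t)).take (MN e l₀ m G t)).length =
        m.eval (inCode (redX e u l₀ G t r) (2 * t)).length
      have hr' : r.length = m'.eval (inCode G t).length := hr
      have h5 := hb G t ht
      rw [length_redX, List.length_take, List.length_drop, hr']
      show min (MN e l₀ m G t) _ = MN e l₀ m G t
      omega
  have hout : PolyC D [enc] (fun x => fX e u l₀ m f x.1 x.2.1 x.2.2) :=
    PolyC.append hK hcall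
  exact PolyC.toTM2 enc (fun x => fX e u l₀ m f x.1 x.2.1 x.2.2) id hout

end Pool.Agent.Lib.Pa7c826n
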