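import Pool.Agent.Lib.Pa7c826f.Smooth
import Pool.Agent.Lib.Pa7c826n.Defs

/-!
Noise followed by noise.

Proof. `ExP_const`: `∑ H, ∏ i, ∏ j, w_ij (H i j) = ∏ i, ∏ j, (w_ij true + w_ij false)`
(distributivity, as `sum_wt` and `Ex_rows` in Lib/Pa7c826n/ProbA.lean). `ExP_mono`: the weights are
nonnegative. `ExP_xor`: change of variable `H = G xor F` (an involution in `F`), the weight of `F`
for the density `r` is the weight of `H` for `noise r r G`. `ExP_mix`: if `p + q = 1`, then
`p = q = r = 1 / 2`, and all probabilities are `1 / 2`: by `ExP_xor` the claim is `h G`. Otherwise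
let `s = 1 - p - q > 0`, `p₁ = (r - p) / s`, `q₁ = (r - q) / s`, both in `[0, 1]` (`r + q ≤ 1`,
`r + p ≤ 1`). Then `ExP (noise r r G) g = ExP (noise p₁ q₁ G) (fun E => ExP (noise p q E) g)`: for
fixed `H` the coefficient of `g H` on the right is `∑ E, ∏ i, ∏ j, (…)`, the product over `i, j` of
the sum over `x = E i j`; for `G i j = false` and `H i j = true` it is
`(1 - p₁) p + p₁ (1 - q) = p + p₁ s = r`, for `G i j = true` and `H i j = false` it is
`(1 - q₁) q + q₁ (1 - p) = q + q₁ s = r`; the other two cases are the complements. Now `ExP_mono`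
and `ExP_const`.
-/

namespace Pool.Agent.Lib.Pa7c826f

open Pool.Agent.Lib.Pa7c826 Finset

private theorem sum_prod2 {N : ℕ} (φ : Fin N → Fin N → Bool → ℝ) :
    ∑ H : Fin N → Fin N → Bool, ∏ i, ∏ j, φ i j (H i j) =
      ∏ i, ∏ j, (φ i j true + φ i j false) := by
  have h1 : ∀ i, ∏ j, (φ i j true + φ i j false) = ∑ x : Fin N → Bool, ∏ j, φ i j (x j) := by
    intro i
    have h2 : ∀ j, φ i j true + φ i j false = ∑ b : Bool, φ i j b := fun j =>
      (Fintype.sum_bool _).symm
    simp_rw [h2]
    rw [Finset.prod_univ_sum, Fintype.piFinset_univ]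
  simp_rw [h1]
  rw [Finset.prod_univ_sum, Fintype.piFinset_univ]

theorem ExP_const {N : ℕ} (P : Fin N → Fin N → ℝ) (c : ℝ) : ExP P (fun _ => c) = c := by
  unfold ExP
  rw [← Finset.sum_mul]
  have h := sum_prod2 (fun i j (b : Bool) => if b = true then P i j else 1 - P i j)
  rw [h]
  simp

theorem ExP_mono {N : ℕ} {P : Fin N → Fin N → ℝ} (hP : ∀ i j, 0 ≤ P i j ∧ P i j ≤ 1)
    {f g : (Fin N → Fin N → Bool) → ℝ} (h : ∀ H, f H ≤ g H) : ExP P f ≤ ExP P g := by
  unfold ExP
  refine Finset.sum_le_sum fun H _ => mul_le_mul_of_nonneg_left (h H) ?_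
  refine Finset.prod_nonneg fun i _ => Finset.prod_nonneg fun j _ => ?_
  split
  · exact (hP i j).1
  · linarith [(hP i j).2]

theorem ExP_xor {N : ℕ} (r : ℝ) (G : Fin N → Fin N → Bool) (g : (Fin N → Fin N → Bool) → ℝ) :
    Pa7c826n.Ex r (fun F => g (fun i j => xor (G i j) (F i j))) = ExP (noise r r G) g := by
  unfold Pa7c826n.Ex ExP
  let φ : (Fin N → Fin N → Bool) → (Fin N → Fin N → Bool) := fun F i j => xor (G i j) (F i j)
  have hφ : Function.Involutive φ := by
    intro F
    funext i j
    show xor (G i j) (xor (G i j) (F i j)) = F i j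
    cases G i j <;> cases F i j <;> rfl
  symm
  rw [← Equiv.sum_comp hφ.toPerm]
  refine Finset.sum_congr rfl fun F _ => ?_
  symm
  show Pa7c826n.wt r F * g (fun i j => xor (G i j) (F i j)) =
    (∏ i, ∏ j, if (xor (G i j) (F i j)) = true then noise r r G i j else 1 - noise r r G i j) *
      g (fun i j => xor (G i j) (F i j))
  congr 1
  unfold Pa7c826n.wt
  refine Finset.prod_congr rfl fun i _ => Finset.prod_congr rfl fun j _ => ?_
  unfold noise
  cases hG : G i j <;> cases hF : F i j <;> simp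

private theorem noise_mem {N : ℕ} {p q : ℝ} (hp0 : 0 ≤ p) (hp1 : p ≤ 1) (hq0 : 0 ≤ q)
    (hq1 : q ≤ 1) (G : Fin N → Fin N → Bool) (i j : Fin N) :
    0 ≤ noise p q G i j ∧ noise p q G i j ≤ 1 := by
  unfold noise
  split
  · exact ⟨by linarith, by linarith⟩
  · exact ⟨hp0, hp1⟩

private theorem ExP_comp {N : ℕ} {p q r p₁ q₁ : ℝ} (h1 : p₁ * (1 - p - q) = r - p)
    (h2 : q₁ * (1 - p - q) = r - q) (G : Fin N → Fin N → Bool)
    (g : (Fin N → Fin N → Bool) → ℝ) :
    ExP (noise p₁ q₁ G) (fun E => ExP (noise p q E) g) = ExP (noise r r G) g := by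
  unfold ExP
  have e1 : ∑ E : Fin N → Fin N → Bool, (∏ i, ∏ j, if E i j = true then noise p₁ q₁ G i j
      else 1 - noise p₁ q₁ G i j) * ∑ H : Fin N → Fin N → Bool, (∏ i, ∏ j, if H i j = true
        then noise p q E i j else 1 - noise p q E i j) * g H =
      ∑ H : Fin N → Fin N → Bool, (∑ E : Fin N → Fin N → Bool, ∏ i, ∏ j,
        ((if E i j = true then noise p₁ q₁ G i j else 1 - noise p₁ q₁ G i j) *
          (if H i j = true then (if E i j = true then 1 - q else p)
            else 1 - (if E i j = true then 1 - q else p)))) * g H := by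
    simp_rw [Finset.mul_sum]
    rw [Finset.sum_comm]
    refine Finset.sum_congr rfl fun H _ => ?_
    rw [Finset.sum_mul]
    refine Finset.sum_congr rfl fun E _ => ?_
    rw [← mul_assoc, ← Finset.prod_mul_distrib]
    congr 1
    refine Finset.prod_congr rfl fun i _ => ?_
    rw [← Finset.prod_mul_distrib]
    rfl
  rw [e1]
  refine Finset.sum_congr rfl fun H _ => ?_
  congr 1
  rw [sum_prod2 (fun i j (b : Bool) =>
    ((if b = true then noise p₁ q₁ G i j else 1 - noise p₁ q₁ G i j) *
          (if H i j = true then (if b = true then 1 - q else p)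
            else 1 - (if b = true then 1 - q else p))))]
  refine Finset.prod_congr rfl fun i _ => Finset.prod_congr rfl fun j _ => ?_
  unfold noise
  cases hG : G i j <;> cases hH : H i j <;>
    simp only [if_true, if_false, Bool.false_eq_true]
  · linear_combination -h1
  · linear_combination h1
  · linear_combination h2
  · linear_combination -h2

theorem ExP_mix {N : ℕ} {c p q r : ℝ} (hp0 : 0 ≤ p) (hpr : p ≤ r) (hq0 : 0 ≤ q) (hqr : q ≤ r)
    (hr : r ≤ 1 / 2) (g : (Fin N → Fin N → Bool) → ℝ)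
    (h : ∀ E : Fin N → Fin N → Bool, c ≤ ExP (noise p q E) g) (G : Fin N → Fin N → Bool) :
    c ≤ Pa7c826n.Ex r (fun F => g (fun i j => xor (G i j) (F i j))) := by
  rw [ExP_xor]
  rcases eq_or_ne (p + q) 1 with hs | hs
  · have e1 : p = 1 / 2 := by linarith
    have e2 : q = 1 / 2 := by linarith
    have e3 : r = 1 / 2 := by linarith
    have := h G
    rwa [e1, e2, ← e3] at this
  · have hs0 : 0 < 1 - p - q := by
      have : p + q < 1 := lt_of_le_of_ne (by linarith) hs
      linarith
    have h1 : (r - p) / (1 - p - q) * (1 - p - q) = r - p := div_mul_cancel₀ _ hs0.ne'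
    have h2 : (r - q) / (1 - p - q) * (1 - p - q) = r - q := div_mul_cancel₀ _ hs0.ne'
    rw [← ExP_comp h1 h2 G g]
    have h3 := ExP_const (noise ((r - p) / (1 - p - q)) ((r - q) / (1 - p - q)) G) c
    refine le_trans (le_of_eq h3.symm) (ExP_mono (fun i j => ?_) (fun E => h E))
    refine noise_mem (div_nonneg (by linarith) hs0.le) ?_ (div_nonneg (by linarith) hs0.le) ?_
      G i j
    · rw [div_le_one hs0]
      linarith
    · rw [div_le_one hs0]
      linarith

end Pool.Agent.Lib.Pa7c826f
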