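import Pool.Agent.Lib.Pa7c826n.LnN

/-!
A numerical fact for the flips of complete rows.

Proof. `N = 2 ^ (2 e l)`, `N * px e u l ≤ 2 * Jx u l = 4 u l` (`px_le`), so
`exp (2 N px) ≤ exp (8 u l) ≤ 2 ^ (12 u l)` (`exp 2 ≤ 8`); `sx u l ≤ 2 ^ (2 u l)`
(`lnN_le_pow`), `a ≤ n₁ ≤ n₁ ^ 40 ≤ 2 ^ l` (if `n₁ = 0` then `a = 0`), so
`a * sx u l ≤ 2 ^ ((2 u + 1) l) ≤ 2 ^ (2 e l - l)` (`u + 1 ≤ e`), `120 ≤ 2 ^ 7`. The claim
follows from `7 + 2 e l + 12 u l + 2 ^ (2 e l - l) ≤ 2 ^ (2 e l)`, which follows from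
`7 + 14 e l ≤ 2 ^ (2 e l - 1)` (`l ≥ 1`), true for `l ≥ 8` (`2 ^ (m - 1) ≥ 7 m + 7` for
`m ≥ 8`, `m = 2 e l`).
-/

namespace Pool.Agent.Lib.Pa7c826n

namespace NumFAux

private theorem pow_big {m : ℕ} (hm : 8 ≤ m) : 7 * m + 7 ≤ 2 ^ (m - 1) := by
  induction m, hm using Nat.le_induction with
  | base => norm_num
  | succ k hk ih =>
    have h : k + 1 - 1 = (k - 1) + 1 := by omega
    rw [h, pow_succ]
    omega

private theorem exp_le {x : ℝ} {v : ℕ} (hx : x ≤ 8 * (v : ℝ)) :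
    Real.exp x ≤ 2 ^ (12 * v) := by
  have h1 : Real.exp 2 ≤ 8 := by
    have h2 := Real.exp_one_lt_d9
    have h3 : Real.exp 2 = Real.exp 1 * Real.exp 1 := by
      rw [← Real.exp_add]; norm_num
    rw [h3]
    have h4 : 0 < Real.exp 1 := Real.exp_pos 1
    nlinarith
  have h5 : Real.exp (8 * (v : ℝ)) = Real.exp 2 ^ (4 * v) := by
    rw [← Real.exp_nat_mul]
    congr 1
    push_cast
    ring
  have h6 : (2 : ℝ) ^ (12 * v) = 8 ^ (4 * v) := by
    have : (8 : ℝ) = 2 ^ 3 := by norm_num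
    rw [this, ← pow_mul]
    congr 1
    ring
  rw [h6]
  calc Real.exp x ≤ Real.exp (8 * (v : ℝ)) := Real.exp_le_exp.2 hx
    _ = Real.exp 2 ^ (4 * v) := h5
    _ ≤ 8 ^ (4 * v) := pow_le_pow_left₀ (Real.exp_pos 2).le h1 _

end NumFAux

open NumFAux in
theorem numX {e u : ℕ} (hue : u < e) :
    ∃ l₀ : ℕ, ∀ l ≥ l₀, ∀ n₁ a : ℕ, n₁ ^ 40 ≤ 2 ^ l → a ≤ n₁ →
      2 ^ (a * sx u l) * (120 * ((2 ^ Lx e l : ℕ) : ℝ) *
        Real.exp (2 * ((2 ^ Lx e l : ℕ) : ℝ) * px e u l)) ≤ 2 ^ (2 ^ Lx e l) := by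
  refine ⟨8, fun l hl n₁ a hn ha => ?_⟩
  have ha2 : a ≤ 2 ^ l := by
    refine ha.trans (le_trans ?_ hn)
    exact Nat.le_self_pow (by norm_num) n₁
  have hs : sx u l ≤ 2 ^ (2 * u * l) := lnN_le_pow (Jx u l)
  have has : a * sx u l ≤ 2 ^ (l + 2 * u * l) := by
    rw [pow_add]
    exact Nat.mul_le_mul ha2 hs
  have hpx := px_le e u l
  have hpow : (0 : ℝ) < 2 ^ Lx e l := by positivity
  have hx : 2 * ((2 ^ Lx e l : ℕ) : ℝ) * px e u l ≤ 8 * ((u * l : ℕ) : ℝ) := by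
    have h1 : 2 ^ Lx e l * px e u l ≤ 2 * (Jx u l : ℝ) := by
      rw [le_div_iff₀ hpow] at hpx
      linarith
    have h2 : (Jx u l : ℝ) = 2 * u * l := by
      unfold Jx
      push_cast
      ring
    rw [h2] at h1
    push_cast
    linarith
  have hexp := exp_le hx
  -- the exponents
  have hm : 8 ≤ 2 * e * l := by nlinarith
  have h7 := pow_big hm
  have hul : l + u * l ≤ e * l := by
    have : (u + 1) * l ≤ e * l := Nat.mul_le_mul_right _ hue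
    linarith
  have hexpo : a * sx u l + (7 + 2 * e * l + 12 * (u * l)) ≤ 2 ^ (2 * e * l) := by
    have h8 : 2 ^ (l + 2 * u * l) ≤ 2 ^ (2 * e * l - 1) := by
      apply Nat.pow_le_pow_right (by norm_num)
      have : l + 2 * u * l + l ≤ 2 * e * l := by nlinarith
      omega
    have h9 : 2 ^ (2 * e * l) = 2 * 2 ^ (2 * e * l - 1) := by
      have : 2 * e * l = (2 * e * l - 1) + 1 := by omega
      conv_lhs => rw [this, pow_succ]
      ring
    have h10 : 2 * e * l + 12 * (u * l) ≤ 7 * (2 * e * l) := by nlinarith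
    omega
  have hL : Lx e l = 2 * e * l := rfl
  calc (2 : ℝ) ^ (a * sx u l) * (120 * ((2 ^ Lx e l : ℕ) : ℝ) *
        Real.exp (2 * ((2 ^ Lx e l : ℕ) : ℝ) * px e u l))
      ≤ 2 ^ (a * sx u l) * (2 ^ 7 * 2 ^ (2 * e * l) * 2 ^ (12 * (u * l))) := by
        apply mul_le_mul_of_nonneg_left _ (by positivity)
        apply mul_le_mul _ hexp (Real.exp_pos _).le (by positivity)
        rw [hL]
        push_cast
        apply mul_le_mul_of_nonneg_right _ (by positivity)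
        norm_num
    _ = 2 ^ (a * sx u l + (7 + 2 * e * l + 12 * (u * l))) := by
        rw [pow_add, pow_add, pow_add]
    _ ≤ 2 ^ (2 ^ (2 * e * l)) := pow_le_pow_right₀ (by norm_num) hexpo
    _ = 2 ^ (2 ^ Lx e l) := by rw [hL]

end Pool.Agent.Lib.Pa7c826n
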