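import Pool.Agent.Lib.Pa7c826f.Base
import Pool.Agent.Lib.Pa7c826n.ProbA
import Pool.Agent.Lib.Pa7c826n.ProbB

/-!
The expected error caused by the flips of complete rows.

Proof. `Ex_cf`: the expectation is over the columns `w`, which are independent:
`2 ^ cf F T = ∏ w, (1 + [∀ v ∈ T, F v w = true]) = ∏ w, (1 + ∏ v ∈ T, [F v w = true])`. Expand the
product over `w` (`Finset.prod_one_add` or `Finset.prod_add`): it is
`∑ W, ∏ w ∈ W, ∏ v ∈ T, [F v w = true]`, with expectation `∑ W, p ^ (|T| |W|) = (1 + p ^ |T|) ^ N`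
(`Ex_sum`, `Ex_prod` for `g v w x = if v ∈ T ∧ w ∈ W ∧ x = false then 0 else 1`).
`Ex_DF`: for nonempty `T` of size `k`, with `x = p ^ k ≤ p`: `(1 + x) ^ N - 1 ≤
N x (1 + x) ^ (N - 1) ≤ N x exp (N x) ≤ N p ^ k exp (N p)`; the sum over all `T` of `p ^ |T|` is
`(1 + p) ^ N ≤ exp (N p)` (`Finset.sum_pow_mul_eq_add_pow` or `Finset.prod_one_add`).
`Pr_DF`: `markov` (strictly: the complement of `DF F < c` is `c ≤ DF F`), with
`c = 120 N exp (2 N p)`; for `N = 0` directly: there is no nonempty `T` and `DF F = 0`.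
-/

namespace Pool.Agent.Lib.Pa7c826n

open Pool.Agent.Lib.Pa7c826 Finset

theorem DF_nonneg {N : ℕ} (F : Fin N → Fin N → Bool) : 0 ≤ DF F := by
  unfold DF
  refine Finset.sum_nonneg fun T _ => ?_
  have h : (1 : ℝ) ≤ (2 : ℝ) ^ cf F T := one_le_pow₀ (by norm_num)
  linarith

theorem TailFAux.pow_cf {N : ℕ} (F : Fin N → Fin N → Bool) (T : Finset (Fin N)) :
    (2 : ℝ) ^ cf F T =
      ∑ W : Finset (Fin N), ∏ v, ∏ w, (if v ∈ T ∧ w ∈ W ∧ F v w = false then (0 : ℝ) else 1) := by
  have h1 : (2 : ℝ) ^ cf F T =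
      ∏ w, (1 + (if ∀ v ∈ T, F v w = true then (1 : ℝ) else 0)) := by
    unfold cf
    rw [← Finset.prod_const, Finset.prod_filter]
    refine Finset.prod_congr rfl fun w _ => ?_
    split_ifs <;> norm_num
  rw [h1, Finset.prod_one_add, Finset.powerset_univ]
  refine Finset.sum_congr rfl fun W _ => ?_
  by_cases h : ∀ w ∈ W, ∀ v ∈ T, F v w = true
  · rw [Finset.prod_eq_one (fun w hw => if_pos (h w hw))]
    symm
    refine Finset.prod_eq_one fun v _ => Finset.prod_eq_one fun w _ => ?_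
    rw [if_neg]
    rintro ⟨hv, hw, hf⟩
    rw [h w hw v hv] at hf
    exact Bool.noConfusion hf
  · push Not at h
    obtain ⟨w, hw, v, hv, hf⟩ := h
    rw [Finset.prod_eq_zero hw (if_neg (fun h2 => hf (h2 v hv)))]
    symm
    refine Finset.prod_eq_zero (Finset.mem_univ v) (Finset.prod_eq_zero (Finset.mem_univ w) ?_)
    rw [if_pos]
    exact ⟨hv, hw, by simpa using hf⟩

theorem Ex_cf (p : ℝ) {N : ℕ} (T : Finset (Fin N)) :
    Ex p (fun F : Fin N → Fin N → Bool => (2 : ℝ) ^ cf F T) = (1 + p ^ T.card) ^ N := by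
  have h1 : (fun F : Fin N → Fin N → Bool => (2 : ℝ) ^ cf F T) = fun F =>
      ∑ W : Finset (Fin N), ∏ v, ∏ w,
        (if v ∈ T ∧ w ∈ W ∧ F v w = false then (0 : ℝ) else 1) := by
    funext F
    exact TailFAux.pow_cf F T
  rw [h1, Ex_sum p Finset.univ (fun (W : Finset (Fin N)) (F : Fin N → Fin N → Bool) =>
    ∏ v, ∏ w, (if v ∈ T ∧ w ∈ W ∧ F v w = false then (0 : ℝ) else 1))]
  have h2 : ∀ W : Finset (Fin N),
      Ex p (fun F : Fin N → Fin N → Bool =>
        ∏ v, ∏ w, (if v ∈ T ∧ w ∈ W ∧ F v w = false then (0 : ℝ) else 1)) =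
      (p ^ T.card) ^ W.card := by
    intro W
    rw [Ex_prod p (fun v w b => if v ∈ T ∧ w ∈ W ∧ b = false then (0 : ℝ) else 1)]
    have h3 : ∀ v w : Fin N,
        p * (if v ∈ T ∧ w ∈ W ∧ true = false then (0 : ℝ) else 1) +
          (1 - p) * (if v ∈ T ∧ w ∈ W ∧ false = false then (0 : ℝ) else 1) =
        if v ∈ T then (if w ∈ W then p else 1) else 1 := by
      intro v w
      by_cases hv : v ∈ T <;> by_cases hw : w ∈ W <;> simp [hv, hw]
    rw [Finset.prod_congr rfl (fun v _ => Finset.prod_congr rfl (fun w _ => h3 v w))]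
    have h4 : ∀ v : Fin N, (∏ w, if v ∈ T then (if w ∈ W then p else 1) else (1 : ℝ)) =
        if v ∈ T then p ^ W.card else 1 := by
      intro v
      by_cases hv : v ∈ T
      · simp only [hv, if_true]
        rw [Finset.prod_ite_mem, Finset.univ_inter, Finset.prod_const]
      · simp [hv]
    rw [Finset.prod_congr rfl (fun v _ => h4 v), Finset.prod_ite_mem, Finset.univ_inter,
      Finset.prod_const, ← pow_mul, ← pow_mul, mul_comm]
  rw [Finset.sum_congr rfl (fun W _ => h2 W)]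
  have h5 := Finset.prod_one_add (s := (Finset.univ : Finset (Fin N)))
    (f := fun _ => (p ^ T.card : ℝ))
  rw [Finset.powerset_univ] at h5
  simp only [Finset.prod_const, Finset.card_univ, Fintype.card_fin] at h5
  exact h5.symm

theorem TailFAux.exp_sub {y : ℝ} : Real.exp y - 1 ≤ y * Real.exp y := by
  have h1 : 1 - y ≤ Real.exp (-y) := by
    have := Real.add_one_le_exp (-y)
    linarith
  have h2 : (1 - y) * Real.exp y ≤ Real.exp (-y) * Real.exp y :=
    mul_le_mul_of_nonneg_right h1 (Real.exp_pos y).le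
  rw [← Real.exp_add, neg_add_cancel, Real.exp_zero] at h2
  linarith

theorem TailFAux.pow_le {x : ℝ} (hx : 0 ≤ x) (N : ℕ) : (1 + x) ^ N ≤ Real.exp (N * x) := by
  rw [Real.exp_nat_mul]
  refine pow_le_pow_left₀ (by linarith) ?_ N
  have := Real.add_one_le_exp x
  linarith

theorem Ex_DF {p : ℝ} (h0 : 0 ≤ p) (h1 : p ≤ 1) (N : ℕ) :
    Ex p (fun F : Fin N → Fin N → Bool => DF F) ≤ N * Real.exp (2 * N * p) := by
  unfold DF
  rw [Ex_sum p ((univ : Finset (Finset (Fin N))).filter (fun T => T.Nonempty))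
    (fun (T : Finset (Fin N)) (F : Fin N → Fin N → Bool) => (2 : ℝ) ^ cf F T - 1)]
  have h2 : ∀ T ∈ (univ : Finset (Finset (Fin N))).filter (fun T => T.Nonempty),
      Ex p (fun F : Fin N → Fin N → Bool => (2 : ℝ) ^ cf F T - 1) ≤
        N * Real.exp (N * p) * p ^ T.card := by
    intro T hT
    have hT2 : T.Nonempty := (Finset.mem_filter.1 hT).2
    have hc : 1 ≤ T.card := Finset.card_pos.2 hT2
    rw [Ex_sub p (fun F : Fin N → Fin N → Bool => (2 : ℝ) ^ cf F T) (fun _ => 1), Ex_cf, Ex_const]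
    have hx0 : 0 ≤ p ^ T.card := pow_nonneg h0 _
    have hxp : p ^ T.card ≤ p := by
      calc p ^ T.card ≤ p ^ 1 := pow_le_pow_of_le_one h0 h1 hc
        _ = p := pow_one p
    have h3 := TailFAux.pow_le hx0 N
    have h4 := TailFAux.exp_sub (y := (N : ℝ) * p ^ T.card)
    have h5 : Real.exp (N * p ^ T.card) ≤ Real.exp (N * p) :=
      Real.exp_le_exp.2 (mul_le_mul_of_nonneg_left hxp (Nat.cast_nonneg N))
    have h6 : (N : ℝ) * p ^ T.card * Real.exp (N * p ^ T.card) ≤
        (N : ℝ) * p ^ T.card * Real.exp (N * p) :=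
      mul_le_mul_of_nonneg_left h5 (mul_nonneg (Nat.cast_nonneg N) hx0)
    calc (1 + p ^ T.card) ^ N - 1 ≤ (N : ℝ) * p ^ T.card * Real.exp (N * p) := by linarith
      _ = N * Real.exp (N * p) * p ^ T.card := by ring
  refine (Finset.sum_le_sum h2).trans ?_
  rw [← Finset.mul_sum]
  have h6 : ∑ T ∈ (univ : Finset (Finset (Fin N))).filter (fun T => T.Nonempty), p ^ T.card ≤
      (1 + p) ^ N := by
    have h5 := Finset.prod_one_add (s := (Finset.univ : Finset (Fin N)))
      (f := fun _ => (p : ℝ))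
    rw [Finset.powerset_univ] at h5
    simp only [Finset.prod_const, Finset.card_univ, Fintype.card_fin] at h5
    rw [h5]
    exact Finset.sum_le_sum_of_subset_of_nonneg (Finset.filter_subset _ _)
      (fun T _ _ => pow_nonneg h0 _)
  have h7 := TailFAux.pow_le h0 N
  have h8 : (0 : ℝ) ≤ N * Real.exp (N * p) := mul_nonneg (Nat.cast_nonneg N) (Real.exp_pos _).le
  calc (N : ℝ) * Real.exp (N * p) *
        ∑ T ∈ (univ : Finset (Finset (Fin N))).filter (fun T => T.Nonempty), p ^ T.card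
      ≤ N * Real.exp (N * p) * Real.exp (N * p) := mul_le_mul_of_nonneg_left (h6.trans h7) h8
    _ = N * (Real.exp (N * p) * Real.exp (N * p)) := by ring
    _ = N * Real.exp (2 * N * p) := by
      rw [← Real.exp_add]
      congr 2
      ring

theorem Pr_DF {p : ℝ} (h0 : 0 ≤ p) (h1 : p ≤ 1) (N : ℕ) :
    1 - 1 / 120 ≤
      Pr p (fun F : Fin N → Fin N → Bool => DF F ≤ 120 * N * Real.exp (2 * N * p)) := by
  rw [Pr_compl]
  have key : Pr p (fun F : Fin N → Fin N → Bool =>
      ¬ DF F ≤ 120 * N * Real.exp (2 * N * p)) ≤ 1 / 120 := by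
    rcases Nat.eq_zero_or_pos N with hN | hN
    · subst hN
      have h2 : ∀ F : Fin 0 → Fin 0 → Bool, DF F = 0 := by
        intro F
        unfold DF
        refine Finset.sum_eq_zero fun T hT => ?_
        obtain ⟨x, _⟩ := (Finset.mem_filter.1 hT).2
        exact x.elim0
      have h3 : Pr p (fun F : Fin 0 → Fin 0 → Bool =>
          ¬ DF F ≤ 120 * ((0 : ℕ) : ℝ) * Real.exp (2 * ((0 : ℕ) : ℝ) * p)) ≤
          Pr p (fun _ : Fin 0 → Fin 0 → Bool => False) := by
        refine Pr_mono h0 h1 fun F hF => hF ?_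
        rw [h2 F]
        simp
      have h4 : Pr p (fun _ : Fin 0 → Fin 0 → Bool => False) = 0 := by
        unfold Pr
        simp only [if_false]
        exact Ex_const p 0
      refine h3.trans ?_
      rw [h4]
      norm_num
    · have hN' : (0 : ℝ) < N := Nat.cast_pos.2 hN
      have hc : (0 : ℝ) < 120 * N * Real.exp (2 * N * p) := by positivity
      have h2 : Pr p (fun F : Fin N → Fin N → Bool =>
          ¬ DF F ≤ 120 * N * Real.exp (2 * N * p)) ≤
          Pr p (fun F : Fin N → Fin N → Bool => 120 * N * Real.exp (2 * N * p) ≤ DF F) :=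
        Pr_mono h0 h1 fun F hF => (not_le.1 hF).le
      have h3 := markov h0 h1 (f := fun F : Fin N → Fin N → Bool => DF F)
        (fun F => DF_nonneg F) hc
      refine h2.trans (h3.trans ?_)
      rw [div_le_iff₀ hc]
      have h4 := Ex_DF h0 h1 N
      calc Ex p (fun F : Fin N → Fin N → Bool => DF F) ≤ N * Real.exp (2 * N * p) := h4
        _ = 1 / 120 * (120 * N * Real.exp (2 * N * p)) := by ring
  linarith

end Pool.Agent.Lib.Pa7c826n
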