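import Pool.Agent.Lib.Pa7c826f.Good
import Pool.Agent.Lib.Pa7c826f.Tail
import Pool.Agent.Lib.Pa7c826n.HProb

/-!
The new graph with flips gives the number of independent sets of the given graph with high
probability. As Lib/Pa7c826n/HProb.lean.
-/

namespace Pool.Agent.Lib.Pa7c826n

open Pool.Agent.Lib.Pa7c826 Finset

open HProbAux in
theorem prob_flips {e u l t : ℕ} {G : BGraph}
    (h : NumOK e u l (nn G t) (G.a + t + 4) G.b)
    (hx : 2 ^ ((G.a + t + 4) * sx u l) * (120 * ((2 ^ Lx e l : ℕ) : ℝ) *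
      Real.exp (2 * ((2 ^ Lx e l : ℕ) : ℝ) * px e u l)) ≤ 2 ^ (2 ^ Lx e l)) :
    19 / 20 ≤ Pr (px e u l) (fun F : Fin (2 ^ Lx e l) → Fin (2 ^ Lx e l) → Bool =>
      |(numIndep (flips (fun i j : Fin (2 ^ Lx e l) => e0 G t (sx u l) i j) F).graph : ℝ) /
        2 ^ (2 ^ Lx e l - G.b + (t + 4)) - numIndep G.graph| ≤
        numIndep G.graph / (2 * t + 1)) := by
  classical
  have h0 : 0 ≤ px e u l := px_nonneg e u l
  have h1 : px e u l ≤ 1 := h.p1.trans (by norm_num)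
  obtain ⟨p, hp⟩ : ∃ p, p = px e u l := ⟨_, rfl⟩
  have has := h.as
  have hb := h.bN
  have g1 := h.g1
  have s2 := h.s2
  have g2 := h.g2
  have H1 := h.H1
  have H2 := h.H2
  have H3 := h.H3
  unfold gamN betaN at *
  rw [← hp] at h0 h1 g1 s2 g2 H1 H2 H3 hx ⊢
  generalize hN : 2 ^ Lx e l = N at *
  generalize hs : sx u l = s at *
  have hn : 16 ≤ nn G t := by unfold nn; omega
  have ha : G.a + t + 4 ≤ nn G t := by unfold nn; omega
  generalize hn1 : nn G t = n₁ at *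
  have hn' : (16 : ℝ) ≤ n₁ := by exact_mod_cast hn
  have hn0 : (0 : ℝ) < n₁ := by linarith
  -- the three events
  have hE1 : Pr p (fun F : Fin N → Fin N → Bool =>
      ∃ x : (Fin (G.a + t + 4) × Fin s) × Fin G.b,
        F (cl has x.1) ⟨x.2, lt_of_lt_of_le x.2.2 hb⟩ = true) ≤ 1 / 80 := by
    refine (Pr_exists_le h0 h1 _).trans ?_
    have e1 : ∀ x : (Fin (G.a + t + 4) × Fin s) × Fin G.b,
        Pr p (fun F : Fin N → Fin N → Bool =>
          F (cl has x.1) ⟨x.2, lt_of_lt_of_le x.2.2 hb⟩ = true) = p := fun x => Pr_pair p _ _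
    rw [Finset.sum_congr rfl (fun x _ => e1 x), Finset.sum_const, Finset.card_univ,
      Fintype.card_prod, Fintype.card_prod, Fintype.card_fin, Fintype.card_fin, Fintype.card_fin,
      nsmul_eq_mul]
    push_cast at g1 ⊢
    linarith
  have hE2 : Pr p (fun F : Fin N → Fin N → Bool =>
      ∃ v : Fin (G.a + t + 4), 1 / (32 * (n₁ : ℝ) ^ 2) <
        |Pu (res has hb F) v - (1 + (1 - p / 2) ^ (N - G.b)) ^ s|) ≤ 1 / 80 := by
    refine (Pr_exists_le h0 h1 _).trans ?_
    have e1 : ∀ v : Fin (G.a + t + 4),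
        Pr p (fun F : Fin N → Fin N → Bool => 1 / (32 * (n₁ : ℝ) ^ 2) <
          |Pu (res has hb F) v - (1 + (1 - p / 2) ^ (N - G.b)) ^ s|) ≤
        s * (1 - 3 * p / 4) ^ (N - G.b) *
          Real.exp (s * (2 * (1 - p / 2) ^ (N - G.b) + (1 - 3 * p / 4) ^ (N - G.b))) /
          (1 / (32 * (n₁ : ℝ) ^ 2)) ^ 2 := by
      intro v
      have e2 := Pr_restrict p (cl has) (pd hb)
        (fun F' : Fin (G.a + t + 4) × Fin s → Fin (N - G.b) → Bool =>
          1 / (32 * (n₁ : ℝ) ^ 2) < |Pu F' v - (1 + (1 - p / 2) ^ (N - G.b)) ^ s|)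
      have e3 := Pu_var (n := N - G.b) (s := s) h0 h1 v
        (ε := 1 / (32 * (n₁ : ℝ) ^ 2)) (by positivity)
      rw [← e2] at e3
      exact e3
    refine (Finset.sum_le_sum fun v _ => e1 v).trans ?_
    rw [Finset.sum_const, Finset.card_univ, Fintype.card_fin, nsmul_eq_mul]
    exact g2
  have hE3 : Pr p (fun F : Fin N → Fin N → Bool =>
      1 / (8 * (n₁ : ℝ)) * ZB (MG G t) ≤
        Yp (MG G t) (res has hb F) - Lp (MG G t) (res has hb F)) ≤ 1 / 60 := by
    have e2 := Pr_restrict p (cl has) (pd hb)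
      (fun F' : Fin (G.a + t + 4) × Fin s → Fin (N - G.b) → Bool =>
        1 / (8 * (n₁ : ℝ)) * ZB (MG G t) ≤ Yp (MG G t) F' - Lp (MG G t) F')
    have hZ := one_le_ZB (MG G t)
    have hc : 0 < 1 / (8 * (n₁ : ℝ)) * ZB (MG G t) := by positivity
    have e3 := markov h0 h1 (f := fun F' : Fin (G.a + t + 4) × Fin s → Fin (N - G.b) → Bool =>
      Yp (MG G t) F' - Lp (MG G t) F') (fun F' => sub_nonneg.2 (Lp_le_Yp _ _)) hc
    have e4 := gap_le (a := G.a + t + 4) (s := s) (n := N - G.b) (b := G.b) (p := p)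
      (ε₃ := 1 / (4000 * (n₁ : ℝ))) (ε₄ := 1 / (32 * (n₁ : ℝ) ^ 2)) (D := 4 * n₁)
      (x₁ := 32 * n₁) h0 h1 (by positivity) (by positivity) H1 H2 H3
      (by push_cast; linarith) (by have := (abs_le.1 s2).2; linarith) (MG G t)
    refine (le_of_eq e2).trans (e3.trans ?_)
    rw [div_le_iff₀ hc]
    refine e4.trans ?_
    have e5 := num3 hn ha
    rw [← mul_assoc]
    refine mul_le_mul_of_nonneg_right ?_ (by linarith)
    have e6 : (1 / 60 : ℝ) * (1 / (8 * (n₁ : ℝ))) = 1 / 60 / (8 * (n₁ : ℝ)) := by ring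
    rw [e6, le_div_iff₀ (by positivity), mul_comm]
    exact e5
  have hE4 : Pr p (fun F : Fin N → Fin N → Bool =>
      ¬ DF F ≤ 120 * N * Real.exp (2 * N * p)) ≤ 1 / 120 := by
    have e1 := Pr_DF h0 h1 N
    rw [Pr_compl] at e1
    linarith
  rw [Pr_compl]
  have hU : Pr p (fun F : Fin N → Fin N → Bool =>
      ¬ |(numIndep (flips (fun i j : Fin N => e0 G t s i j) F).graph : ℝ) /
        2 ^ (N - G.b + (t + 4)) - numIndep G.graph| ≤ numIndep G.graph / (2 * t + 1)) ≤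
      1 / 80 + (1 / 80 + (1 / 60 + 1 / 120)) := by
    refine (Pr_mono h0 h1 (B := fun F : Fin N → Fin N → Bool =>
      (∃ x : (Fin (G.a + t + 4) × Fin s) × Fin G.b,
        F (cl has x.1) ⟨x.2, lt_of_lt_of_le x.2.2 hb⟩ = true) ∨
      ((∃ v : Fin (G.a + t + 4), 1 / (32 * (n₁ : ℝ) ^ 2) <
        |Pu (res has hb F) v - (1 + (1 - p / 2) ^ (N - G.b)) ^ s|) ∨
      ((1 / (8 * (n₁ : ℝ)) * ZB (MG G t) ≤
        Yp (MG G t) (res has hb F) - Lp (MG G t) (res has hb F)) ∨
      ¬ DF F ≤ 120 * N * Real.exp (2 * N * p)))) ?_).trans ?_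
    · intro F hF
      by_contra hcon
      rw [not_or, not_or, not_or, not_not] at hcon
      obtain ⟨k1, k2, k3, k0⟩ := hcon
      apply hF
      have k4 := good_flips (G := G) (t := t) has hb F ?_ ?_ ?_ ?_
      · exact k4
      · intro v j hj
        by_contra hne
        exact k1 ⟨(v, ⟨j, hj⟩), by simpa using hne⟩
      · intro v
        rw [hn1]
        have k5 : ¬ 1 / (32 * (n₁ : ℝ) ^ 2) <
            |Pu (res has hb F) v - (1 + (1 - p / 2) ^ (N - G.b)) ^ s| := fun hk => k2 ⟨v, hk⟩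
        rw [not_lt] at k5
        have k6 : Pu (res has hb F) v - 2 =
            (Pu (res has hb F) v - (1 + (1 - p / 2) ^ (N - G.b)) ^ s) +
              ((1 + (1 - p / 2) ^ (N - G.b)) ^ s - 2) := by ring
        rw [k6]
        refine (abs_add_le _ _).trans ?_
        have k7 : 1 / (16 * (n₁ : ℝ) ^ 2) = 1 / (32 * (n₁ : ℝ) ^ 2) + 1 / (32 * (n₁ : ℝ) ^ 2) := by
          field_simp
          norm_num
        rw [k7]
        exact add_le_add k5 s2
      · rw [hn1]
        exact (not_le.1 k3).le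
      · exact (mul_le_mul_of_nonneg_left k0 (by positivity)).trans hx
    · exact (Pr_or_le h0 h1 _ _).trans (add_le_add hE1
        ((Pr_or_le h0 h1 _ _).trans (add_le_add hE2
          ((Pr_or_le h0 h1 _ _).trans (add_le_add hE3 hE4)))))
  linarith

end Pool.Agent.Lib.Pa7c826n
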