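import Pool.Agent.Lib.Pa7c826f.Couple
import Pool.Agent.Lib.Pa7c826f.Mix

/-!
Above the threshold: the noise contains independent random edges.
-/

namespace Pool.Agent.Lib.Pa7c826f

open Pool.Agent.Lib.Pa7c826

theorem smoothed_of_noisy {p q : ℕ → ℝ}
    (hp : ∃ N₁ : ℕ, ∀ N ≥ N₁, 0 ≤ p N ∧ 0 ≤ q N ∧ p N ≤ 1 - q N) (h : Pa7c826n.NoisyFPTAS p) :
    SmoothedFPTAS p q := by
  classical
  obtain ⟨f, hf, δ, hδ, N₀, hN₀⟩ := h
  obtain ⟨N₁, hN₁⟩ := hp
  refine ⟨f, hf, δ, hδ, N₀ + N₁, fun N hN G => ?_⟩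
  obtain ⟨h0, h1, h2⟩ := hN₁ N (by omega)
  have h3 := hN₀ N (by omega)
  have hP : ∀ i j, p N ≤ noise (p N) (q N) G i j ∧ noise (p N) (q N) G i j ≤ 1 := by
    intro i j
    unfold noise
    split_ifs <;> constructor <;> linarith
  unfold ExP
  rw [Pa7c826n.couple hP]
  refine le_trans (le_of_eq (ExP_const (fun i j =>
    (noise (p N) (q N) G i j - p N) / (1 - p N)) (1 - (N : ℝ) ^ (-δ))).symm) ?_
  refine ExP_mono (fun i j => ?_) fun R => ?_
  · have h4 := hP i j
    rcases eq_or_lt_of_le (show p N ≤ 1 by linarith) with h5 | h5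
    · rw [h5]
      norm_num
    · have h6 : 0 < 1 - p N := by linarith
      exact ⟨div_nonneg (by linarith [h4.1]) h6.le, by rw [div_le_one h6]; linarith [h4.2]⟩
  · refine h3.trans ?_
    unfold Pa7c826n.Pr
    refine Finset.sum_le_sum fun F _ => ?_
    have hw : 0 ≤ Pa7c826n.wt (p N) F := Pa7c826n.wt_nonneg h0 (by linarith) F
    refine mul_le_mul_of_nonneg_left ?_ hw
    beta_reduce
    by_cases hA : ∀ (E : Fin N → Fin N → Bool) (t : ℕ) (ht : 1 ≤ t),
          Good (Pa7c826n.join E F) t (f ⟨(Pa7c826n.join E F, t), rfl, ht⟩)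
    · rw [if_pos hA]
      have hB : ∀ (E : Fin N → Fin N → Bool) (t : ℕ) (ht : 1 ≤ t),
          Good (toGraph fun i j => E i j || (R i j || F i j)) t
            (f ⟨(toGraph fun i j => E i j || (R i j || F i j), t), rfl, ht⟩) := by
        intro E t ht
        have h7 := hA (fun i j => E i j || R i j) t ht
        have h8 : Pa7c826n.join (fun i j => E i j || R i j) F =
            toGraph fun i j => E i j || (R i j || F i j) := by
          unfold Pa7c826n.join toGraph
          simp only [Bool.or_assoc]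
        revert h7
        generalize_proofs hpf
        revert hpf
        rw [h8]
        intro _ h9
        exact h9
      rw [if_pos hB]
    · rw [if_neg hA]
      split_ifs <;> norm_num

end Pool.Agent.Lib.Pa7c826f
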