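import Pool.Agent.Lib.Pa7c826n.Easy
import Pool.Agent.Lib.Pa7c826f.Soft
import Pool.Agent.Lib.Pa7c826f.SHard
import Pool.Agent.Lib.Pa7c826f.SHardB

/-!
The smoothed threshold for additions and deletions of edges.
-/

namespace Pool.Agent.Lib.Pa7c826f

open Pool.Agent.Lib.Pa7c826

theorem threshold (c : ℝ) (p q : ℕ → ℝ) :
    (2 < c → (∃ N₁ : ℕ, ∀ N ≥ N₁, c * Real.log N / N ≤ p N ∧ 0 ≤ q N ∧ p N + q N ≤ 1) →
      SmoothedFPTAS p q) ∧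
    (c < 2 → (∃ N₁ : ℕ, ∀ N ≥ N₁, 0 ≤ q N ∧ q N ≤ p N ∧ p N ≤ c * Real.log N / N) →
      (SmoothedFPRAS p q ↔ HasFPRAS (fun _ => True))) := by
  refine ⟨fun hc hp => ?_, fun hc hp => ⟨all_of_smoothed hc hp, smoothed_of_all hc hp⟩⟩
  obtain ⟨N₁, hN₁⟩ := hp
  refine smoothed_of_noisy ⟨N₁ + 1, fun N hN => ?_⟩
    (Pa7c826n.easy hc ⟨N₁, fun N hN => ⟨(hN₁ N hN).1, ?_⟩⟩)
  · obtain ⟨h1, h2, h3⟩ := hN₁ N (by omega)
    have h4 : (1 : ℝ) ≤ N := by exact_mod_cast (show 1 ≤ N by omega)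
    have h5 := Real.log_nonneg h4
    refine ⟨le_trans ?_ h1, h2, by linarith⟩
    positivity
  · obtain ⟨h1, h2, h3⟩ := hN₁ N hN
    linarith

end Pool.Agent.Lib.Pa7c826f
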