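import Pool.Agent.Lib.Pa7c826.Scheme

/-!
Randomly perturbed bipartite graphs, and approximation schemes for the number of independent sets
of the perturbed graphs.
-/

namespace Pool.Agent.Lib.Pa7c826f

open Pool.Agent.Lib.Pa7c826

/-- The bipartite graph with `N` vertices on each side whose edges are the pairs of `H`. -/
def toGraph {N : ℕ} (H : Fin N → Fin N → Bool) : BGraph := ⟨N, N, H⟩

/-- The expectation of `g H` for the random set `H` of pairs that contains the pairs independently
of each other, the pair `(i, j)` with probability `P i j`. -/
noncomputable def ExP {N : ℕ} (P : Fin N → Fin N → ℝ) (g : (Fin N → Fin N → Bool) → ℝ) : ℝ :=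
  ∑ H, (∏ i, ∏ j, if H i j = true then P i j else 1 - P i j) * g H

/-- The noise with rates `p`, `q`: the probability of the pair `(i, j)` to be an edge of the
perturbed graph if every pair outside the bipartite graph `G` is added with probability `p` and
every edge of `G` is deleted with probability `q`. -/
noncomputable def noise {N : ℕ} (p q : ℝ) (G : Fin N → Fin N → Bool) (i j : Fin N) : ℝ :=
  if G i j = true then 1 - q else p

open Classical in
/-- A deterministic fully polynomial approximation scheme under the noise with rates `p N`, `q N`,
`N` the number of vertices on each side: a machine that on input `(H, 1^t)`, `H` a balanced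
bipartite graph and `t ≥ 1`, runs in polynomial time, such that for some `δ > 0`, all large `N`
and every bipartite graph `G` the following event has probability at least `1 - N ^ (-δ)` for the
perturbed graph `H` of `G`: for every bipartite graph `E` on the same vertices (chosen after `H`)
and every `t`, the output on input `(E ∪ H, 1^t)` is within a factor `1 ± 1 / t` of the number of
independent sets of `E ∪ H`. -/
def SmoothedFPTAS (p q : ℕ → ℝ) : Prop :=
  ∃ f : {x : BGraph × ℕ // x.1.a = x.1.b ∧ 1 ≤ x.2} → List Bool,
    Nonempty (Turing.TM2ComputableInPolyTime (α := {x : BGraph × ℕ // x.1.a = x.1.b ∧ 1 ≤ x.2})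
      (αΓ := Bool) (βΓ := Bool) (fun x => inCode x.1.1 x.1.2) id f) ∧
    ∃ δ : ℝ, 0 < δ ∧ ∃ N₀ : ℕ, ∀ N ≥ N₀, ∀ G : Fin N → Fin N → Bool,
      1 - (N : ℝ) ^ (-δ) ≤ ExP (noise (p N) (q N) G) (fun H =>
        if ∀ (E : Fin N → Fin N → Bool) (t : ℕ) (ht : 1 ≤ t),
          Good (toGraph fun i j => E i j || H i j) t
            (f ⟨(toGraph fun i j => E i j || H i j, t), rfl, ht⟩)
        then 1 else 0)

/-- A randomised approximation scheme under the noise with rates `p N`, `q N`, `N` the number of
vertices on each side: a polynomial `m` and a machine that on input `(H, 1^t)`, `H` a balanced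
bipartite graph and `t ≥ 1`, followed by `m(length)` random bits, runs in polynomial time, such
that for all large `N`, every bipartite graph `G` with `N` vertices on each side and every
`t ≥ 1` the output on input `(H, 1^t)`, `H` the perturbed graph of `G`, is within a factor
`1 ± 1 / t` of the number of independent sets of `H` with probability at least `3 / 4` (over
the random bits and the noise). -/
def SmoothedFPRAS (p q : ℕ → ℝ) : Prop :=
  ∃ (m : Polynomial ℕ) (f : BGraph → ℕ → List Bool → List Bool),
    Nonempty (Turing.TM2ComputableInPolyTime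
      (α := {x : BGraph × ℕ × List Bool //
        x.1.a = x.1.b ∧ 1 ≤ x.2.1 ∧ x.2.2.length = m.eval (inCode x.1 x.2.1).length})
      (αΓ := Bool) (βΓ := Bool) (fun x => inCode x.1.1 x.1.2.1 ++ x.1.2.2) id
      (fun x => f x.1.1 x.1.2.1 x.1.2.2)) ∧
    ∃ N₀ : ℕ, ∀ N ≥ N₀, ∀ (G : Fin N → Fin N → Bool) (t : ℕ), 1 ≤ t →
      3 / 4 ≤ ExP (noise (p N) (q N) G) (fun H =>
        (Nat.card {r : Fin (m.eval (inCode (toGraph H) t).length) → Bool //
          Good (toGraph H) t (f (toGraph H) t (List.ofFn r))} : ℝ) /
        2 ^ m.eval (inCode (toGraph H) t).length)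

end Pool.Agent.Lib.Pa7c826f
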