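import Pool.Agent.Lib.Pa7c826n.ProbA

/-!
Two independent rounds of flips.

Proof. `Ex_xor`: as `Ex_union` in Lib/Pa7c826n/ProbD.lean (write `g` as a sum over its values,
`g F' = ∑ H, g H * ∏ i, ∏ j, [F' i j = H i j]`, and use `Ex_prod` twice; for one pair the
probability of `true` is `p (1 - q) + (1 - p) q = p + q - 2 p q`). `Ex_lower_xor`: if `p = 1 / 2`,
then `p' = p`. Otherwise let `q = (p' - p) / (1 - 2 p)`, `0 ≤ q ≤ 1 / 2` and
`p' = q + p - 2 q p`; by `Ex_xor` (applied to `g` composed with the flips of `E`) and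
associativity the expectation is the average over `F₁` (flipped with probability `q`) of the
expectations in `h` for `E xor F₁`; `Ex_mono`, `Ex_const`.
-/

namespace Pool.Agent.Lib.Pa7c826n

variable {α β : Type} [Fintype α] [Fintype β] [DecidableEq α] [DecidableEq β]

namespace XorFAux

/-- indicator of equality -/
def idc (x y : Bool) : ℝ := if x = y then 1 else 0

theorem expand (g : (α → β → Bool) → ℝ) (F' : α → β → Bool) :
    g F' = ∑ H : α → β → Bool, g H * ∏ i, ∏ j, idc (F' i j) (H i j) := by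
  rw [Finset.sum_eq_single F']
  · have : ∏ i, ∏ j, idc (F' i j) (F' i j) = 1 := by
      refine Finset.prod_eq_one fun i _ => Finset.prod_eq_one fun j _ => ?_
      simp [idc]
    rw [this, mul_one]
  · intro H _ hH
    have : ∃ i j, F' i j ≠ H i j := by
      by_contra hcon
      push Not at hcon
      exact hH (funext fun i => funext fun j => (hcon i j).symm)
    obtain ⟨i, j, hij⟩ := this
    have h0 : ∏ i, ∏ j, idc (F' i j) (H i j) = 0 := by
      refine Finset.prod_eq_zero (Finset.mem_univ i) (Finset.prod_eq_zero (Finset.mem_univ j) ?_)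
      simp [idc, hij]
    rw [h0, mul_zero]
  · intro h
    exact absurd (Finset.mem_univ _) h

theorem coef (p q : ℝ) (H : α → β → Bool) :
    Ex p (fun F₁ : α → β → Bool => Ex q (fun F => ∏ i, ∏ j, idc (xor (F₁ i j) (F i j)) (H i j))) =
      wt (p + q - 2 * p * q) H := by
  have h1 : ∀ F₁ : α → β → Bool,
      Ex q (fun F : α → β → Bool => ∏ i, ∏ j, idc (xor (F₁ i j) (F i j)) (H i j)) =
        ∏ i, ∏ j, (q * idc (xor (F₁ i j) true) (H i j) +
          (1 - q) * idc (xor (F₁ i j) false) (H i j)) := by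
    intro F₁
    exact Ex_prod q (fun i j b => idc (xor (F₁ i j) b) (H i j))
  simp only [h1]
  rw [Ex_prod p (fun i j b => (q * idc (xor b true) (H i j) +
    (1 - q) * idc (xor b false) (H i j)))]
  unfold wt
  refine Finset.prod_congr rfl fun i _ => Finset.prod_congr rfl fun j _ => ?_
  cases H i j <;> simp [idc] <;> ring

end XorFAux

open XorFAux

theorem Ex_xor (p q : ℝ) (g : (α → β → Bool) → ℝ) :
    Ex p (fun F₁ => Ex q (fun F => g (fun i j => xor (F₁ i j) (F i j)))) =
      Ex (p + q - 2 * p * q) g := by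
  have h1 : ∀ F₁ F : α → β → Bool, g (fun i j => xor (F₁ i j) (F i j)) =
      ∑ H : α → β → Bool, g H * ∏ i, ∏ j, idc (xor (F₁ i j) (F i j)) (H i j) :=
    fun F₁ F => expand g _
  simp only [h1]
  simp only [Ex_sum, Ex_mul]
  simp only [coef]
  unfold Ex
  exact Finset.sum_congr rfl fun H _ => mul_comm _ _

theorem Ex_lower_xor {c p p' : ℝ} (h0 : 0 ≤ p) (h1 : p ≤ p') (h2 : p' ≤ 1 / 2)
    (g : (α → β → Bool) → ℝ)
    (h : ∀ E : α → β → Bool, c ≤ Ex p (fun F => g (fun i j => xor (E i j) (F i j))))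
    (E : α → β → Bool) : c ≤ Ex p' (fun F => g (fun i j => xor (E i j) (F i j))) := by
  rcases eq_or_lt_of_le (h1.trans h2) with hp | hp
  · have : p' = p := by linarith
    rw [this]
    exact h E
  · have hd : 0 < 1 - 2 * p := by linarith
    have hq0 : 0 ≤ (p' - p) / (1 - 2 * p) := div_nonneg (by linarith) hd.le
    have hq1 : (p' - p) / (1 - 2 * p) ≤ 1 := by
      rw [div_le_one hd]
      linarith
    have hq : (p' - p) / (1 - 2 * p) + p - 2 * ((p' - p) / (1 - 2 * p)) * p = p' := by
      have e : (p' - p) / (1 - 2 * p) * (1 - 2 * p) = p' - p := div_mul_cancel₀ _ hd.ne'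
      linear_combination e
    have h3 := Ex_xor ((p' - p) / (1 - 2 * p)) p
      (fun F : α → β → Bool => g (fun i j => xor (E i j) (F i j)))
    rw [hq] at h3
    rw [← h3]
    have h4 : c = Ex ((p' - p) / (1 - 2 * p)) (fun _ : α → β → Bool => c) :=
      (Ex_const _ _).symm
    rw [h4]
    refine Ex_mono hq0 hq1 fun F₁ => ?_
    have h5 := h (fun i j => xor (E i j) (F₁ i j))
    simp only [Bool.xor_assoc] at h5
    exact h5

end Pool.Agent.Lib.Pa7c826n
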